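import Mathlib

open MvPolynomial AlgebraicGeometry CategoryTheory

universe u

namespace Pool.Agent.Helper413.Quad


attribute [local instance] MvPolynomial.gradedAlgebra

/-- The restriction to `V` of the function `f` on `W`, for open subsets `V ⊆ W` of `X`. -/
noncomputable def restr {X : Scheme.{u}} {V W : X.Opens} (h : V ≤ W) (f : Γ(X, W)) : Γ(X, V) :=
  X.presheaf.map (homOfLE h).op f

/-- The constant function `c` on the open subset `V` of the `k`-scheme `s : X ⟶ Spec k`. -/
noncomputable def constSection {k : Type u} [Field k] {X : Scheme.{u}}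
    (s : X ⟶ Spec (CommRingCat.of k)) (V : X.Opens) (c : k) : Γ(X, V) :=
  (s.appLE ⊤ V le_top) ((Scheme.ΓSpecIso (CommRingCat.of k)).inv c)

/-- A section over the open set `U` of the tangent sheaf of the `k`-scheme `s : X ⟶ Spec k`: a
`k`-derivation of the sheaf of rings `O_U`, that is, a `k`-derivation `O(V) → O(V)` for every open
`V ⊆ U`, compatible with restrictions. -/
structure VectorField {k : Type u} [Field k] {X : Scheme.{u}}
    (s : X ⟶ Spec (CommRingCat.of k)) (U : X.Opens) where
  der : ∀ V : X.Opens, V ≤ U → Γ(X, V) → Γ(X, V)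
  add : ∀ (V : X.Opens) (hV : V ≤ U) (f g : Γ(X, V)),
    der V hV (f + g) = der V hV f + der V hV g
  leibniz : ∀ (V : X.Opens) (hV : V ≤ U) (f g : Γ(X, V)),
    der V hV (f * g) = f * der V hV g + g * der V hV f
  const : ∀ (V : X.Opens) (hV : V ≤ U) (c : k), der V hV (constSection s V c) = 0
  res : ∀ (V W : X.Opens) (hW : W ≤ U) (h : V ≤ W) (f : Γ(X, W)),
    der V (h.trans hW) (restr h f) = restr h (der W hW f)

/-- A line bundle on `X`, given by an open cover `U i` and transition functions `g i j` on
`U i ∩ U j` satisfying the cocycle conditions. (It has a local generator `e i` on `U i`, and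
`e j = g i j • e i` on `U i ∩ U j`.) -/
structure LineBundle (X : Scheme.{u}) where
  ι : Type u
  U : ι → X.Opens
  cover : ∀ x : X, ∃ i, x ∈ U i
  g : ∀ i j, Γ(X, U i ⊓ U j)
  g_self : ∀ i, g i i = 1
  g_mul : ∀ (i j l : ι) (V : X.Opens) (hi : V ≤ U i) (hj : V ≤ U j) (hl : V ≤ U l),
    restr (le_inf hi hj) (g i j) * restr (le_inf hj hl) (g j l) = restr (le_inf hi hl) (g i l)

/-- A global section of the `n`-th tensor power of the line bundle `L`: functions `f i` on `U i`
(the section is `f i • (e i)^n` on `U i`) that agree on the overlaps. -/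
structure LineBundle.PowSection {X : Scheme.{u}} (L : LineBundle X) (n : ℕ) where
  f : ∀ i, Γ(X, L.U i)
  agree : ∀ i j, restr inf_le_left (f i) = L.g i j ^ n * restr inf_le_right (f j)

/-- The open set where a section of a power of a line bundle does not vanish. -/
def LineBundle.PowSection.nonvanishing {X : Scheme.{u}} {L : LineBundle X} {n : ℕ}
    (σ : L.PowSection n) : X.Opens :=
  ⨆ i, X.basicOpen (σ.f i)

/-- `L` is ample: `X` is quasi-compact and every point has an affine neighbourhood of the form
`{σ ≠ 0}`, with `σ` a global section of a positive power of `L`. -/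
def LineBundle.IsAmple {X : Scheme.{u}} (L : LineBundle X) : Prop :=
  CompactSpace X ∧ ∀ x : X, ∃ (n : ℕ) (σ : L.PowSection n), 0 < n ∧ x ∈ σ.nonvanishing ∧
    IsAffineOpen σ.nonvanishing

/-- A morphism of `O_X`-modules from the line bundle `L` to the tangent sheaf of `X`: the images
`D i` (vector fields on `U i`) of the local generators `e i`, which satisfy `D j = g i j • D i` on
the overlaps. -/
structure HomToTangent {k : Type u} [Field k] {X : Scheme.{u}}
    (s : X ⟶ Spec (CommRingCat.of k)) (L : LineBundle X) where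
  D : ∀ i, VectorField s (L.U i)
  agree : ∀ (i j : L.ι) (V : X.Opens) (hi : V ≤ L.U i) (hj : V ≤ L.U j) (f : Γ(X, V)),
    (D j).der V hj f = restr (le_inf hi hj) (L.g i j) * (D i).der V hi f

/-- The morphism to the tangent sheaf is not zero. -/
def HomToTangent.IsNonzero {k : Type u} [Field k] {X : Scheme.{u}}
    {s : X ⟶ Spec (CommRingCat.of k)} {L : LineBundle X} (φ : HomToTangent s L) : Prop :=
  ∃ (i : L.ι) (V : X.Opens) (hV : V ≤ L.U i) (f : Γ(X, V)), (φ.D i).der V hV f ≠ 0

/-- Projective `n`-space over `k`. -/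
noncomputable def PP (k : Type u) [Field k] (n : ℕ) : Scheme.{u} :=
  Proj (homogeneousSubmodule (Fin (n + 1)) k)

/-- The structure morphism of projective `n`-space over `k`. -/
noncomputable def PPstr (k : Type u) [Field k] (n : ℕ) : PP k n ⟶ Spec (CommRingCat.of k) :=
  Proj.toSpecZero (homogeneousSubmodule (Fin (n + 1)) k) ≫
    Spec.map (CommRingCat.ofHom (algebraMap k (homogeneousSubmodule (Fin (n + 1)) k 0)))

/-- The `k`-scheme `X` is projective: it is a closed subscheme of a projective space over `k`. -/
def IsProjectiveOver {k : Type u} [Field k] {X : Scheme.{u}}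
    (s : X ⟶ Spec (CommRingCat.of k)) : Prop :=
  ∃ (N : ℕ) (i : X ⟶ PP k N), IsClosedImmersion i ∧ i ≫ PPstr k N = s

end Pool.Agent.Helper413.Quad
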