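import Mathlib
import Pool.Agent.Helper413.Quad.Defs

open DirectSum SetLike HomogeneousLocalization

universe u

namespace Pool.Agent.Helper413.Quad


section GrDer

variable {A : Type u} [CommRing A] {σ : Type*} [SetLike σ A] [AddSubgroupClass σ A]
  {𝒜 : ℕ → σ} [GradedRing 𝒜]

/-- a degree preserving additive map satisfying the Leibniz rule -/
structure GrDer (𝒜 : ℕ → σ) where
  E : A →+ A
  mul : ∀ a b, E (a * b) = a * E b + b * E a
  deg : ∀ n a, a ∈ 𝒜 n → E a ∈ 𝒜 n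

variable (E : GrDer 𝒜) {S : Submonoid A}

/-- quotient rule -/
def GrDer.numDen (c : NumDenSameDeg 𝒜 S) : NumDenSameDeg 𝒜 S where
  deg := c.deg + c.deg
  num := ⟨E.E c.num * c.den - c.num * E.E c.den, sub_mem
    (mul_mem_graded (E.deg _ _ c.num.2) c.den.2) (mul_mem_graded c.num.2 (E.deg _ _ c.den.2))⟩
  den := ⟨c.den * c.den, mul_mem_graded c.den.2 c.den.2⟩
  den_mem := S.mul_mem c.den_mem c.den_mem

lemma GrDer.numDen_congr (c c' : NumDenSameDeg 𝒜 S) (h : c.embedding = c'.embedding) :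
    (E.numDen c).embedding = (E.numDen c').embedding := by
  simp only [NumDenSameDeg.embedding] at h ⊢
  rw [Localization.mk_eq_mk_iff, Localization.r_iff_exists] at h ⊢
  obtain ⟨⟨t, ht⟩, h1⟩ := h
  refine ⟨⟨t * t, S.mul_mem ht ht⟩, ?_⟩
  simp only [GrDer.numDen] at h1 ⊢
  have h2 : E.E (t * (c'.den * c.num - c.den * c'.num)) = 0 := by
    rw [show t * ((c'.den : A) * c.num - c.den * c'.num) = 0 by linear_combination h1, map_zero]
  rw [E.mul, map_sub, E.mul, E.mul] at h2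
  linear_combination (-(t * c'.den * E.E c.den + t * c.den * E.E c'.den + c.den * c'.den * E.E t)) * h1 +
    (t * c.den * c'.den) * h2

/-- the induced derivation of the homogeneous localization -/
def GrDer.der (y : HomogeneousLocalization 𝒜 S) : HomogeneousLocalization 𝒜 S :=
  Quotient.map' E.numDen (fun c c' h => E.numDen_congr c c' h) y

lemma GrDer.der_mk (c : NumDenSameDeg 𝒜 S) :
    E.der (HomogeneousLocalization.mk c) = HomogeneousLocalization.mk (E.numDen c) := rfl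

omit [AddSubgroupClass σ A] [GradedRing 𝒜] in
lemma GrDer.one : E.E 1 = 0 := by
  have h1 := E.mul 1 1
  rw [mul_one] at h1
  linear_combination -h1

lemma GrDer.der_add (y y' : HomogeneousLocalization 𝒜 S) :
    E.der (y + y') = E.der y + E.der y' := by
  obtain ⟨c, rfl⟩ := mk_surjective y
  obtain ⟨c', rfl⟩ := mk_surjective y'
  rw [← mk_add, E.der_mk, E.der_mk, E.der_mk, ← mk_add]
  apply val_injective
  rw [val_mk, val_mk, Localization.mk_eq_mk_iff, Localization.r_iff_exists]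
  refine ⟨1, ?_⟩
  simp only [GrDer.numDen, NumDenSameDeg.num_add, NumDenSameDeg.den_add, map_add, E.mul,
    OneMemClass.coe_one]
  ring

lemma GrDer.der_mul (y y' : HomogeneousLocalization 𝒜 S) :
    E.der (y * y') = y * E.der y' + y' * E.der y := by
  obtain ⟨c, rfl⟩ := mk_surjective y
  obtain ⟨c', rfl⟩ := mk_surjective y'
  rw [← mk_mul, E.der_mk, E.der_mk, E.der_mk, ← mk_mul, ← mk_mul, ← mk_add]
  apply val_injective
  rw [val_mk, val_mk, Localization.mk_eq_mk_iff, Localization.r_iff_exists]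
  refine ⟨1, ?_⟩
  simp only [GrDer.numDen, NumDenSameDeg.num_add, NumDenSameDeg.den_add, NumDenSameDeg.num_mul,
    NumDenSameDeg.den_mul, E.mul, OneMemClass.coe_one]
  ring

lemma GrDer.der_zero : E.der (0 : HomogeneousLocalization 𝒜 S) = 0 := by
  have h1 := E.der_add (0 : HomogeneousLocalization 𝒜 S) 0
  rw [add_zero] at h1
  exact left_eq_add.1 h1

open AlgebraicGeometry CategoryTheory TopologicalSpace Opposite

/-- the derivation of the sections of the structure sheaf of `Proj` -/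
noncomputable def GrDer.sec (U : (Proj 𝒜).Opens) : Γ(Proj 𝒜, U) →+ Γ(Proj 𝒜, U) where
  toFun f := ⟨fun p => E.der (f.1 p), by
    intro p
    obtain ⟨V, m, i, j, r, s, nin, hy⟩ := f.2 p
    refine ⟨V, m, i, j + j, ⟨E.E r * s - r * E.E s, sub_mem
      (mul_mem_graded (E.deg _ _ r.2) s.2) (mul_mem_graded r.2 (E.deg _ _ s.2))⟩,
      ⟨s * s, mul_mem_graded s.2 s.2⟩, ?_, ?_⟩
    · intro q
      exact fun h => (q.1.isPrime.mem_or_mem h).elim (nin q) (nin q)
    · intro q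
      have h1 := hy q
      exact (congrArg E.der h1)⟩
  map_zero' := by
    apply Subtype.ext
    funext p
    exact E.der_zero
  map_add' f g := by
    apply Subtype.ext
    funext p
    exact E.der_add _ _

/-- the local ring at a point of `Proj` -/
abbrev Loc (𝒜 : ℕ → σ) [GradedRing 𝒜] (p : ProjectiveSpectrum 𝒜) : Type u :=
  HomogeneousLocalization.AtPrime 𝒜 p.asHomogeneousIdeal.toIdeal

/-- the value of a section at a point -/
noncomputable def valueAt {U : (Proj 𝒜).Opens} (p : ProjectiveSpectrum 𝒜) (hp : (p : Proj 𝒜) ∈ U) :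
    Γ(Proj 𝒜, U) →+* Loc 𝒜 p where
  toFun f := f.1 ⟨p, hp⟩
  map_one' := rfl
  map_mul' _ _ := rfl
  map_zero' := rfl
  map_add' _ _ := rfl

lemma valueAt_res {U V : (Proj 𝒜).Opens} (h : V ≤ U) (p : ProjectiveSpectrum 𝒜)
    (hp : (p : Proj 𝒜) ∈ V) (f : Γ(Proj 𝒜, U)) :
    valueAt p hp ((Proj 𝒜).presheaf.map (homOfLE h).op f) = valueAt p (h hp) f := rfl

lemma valueAt_sec {U : (Proj 𝒜).Opens} (p : ProjectiveSpectrum 𝒜) (hp : (p : Proj 𝒜) ∈ U)
    (f : Γ(Proj 𝒜, U)) : valueAt p hp (E.sec U f) = E.der (valueAt p hp f) := rfl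

lemma section_ext {U : (Proj 𝒜).Opens} {f g : Γ(Proj 𝒜, U)}
    (h : ∀ p (hp : (p : Proj 𝒜) ∈ U), valueAt p hp f = valueAt p hp g) : f = g := by
  apply Subtype.ext
  funext p
  exact h p.1 p.2

lemma valueAt_awayToSection {f : A} (p : ProjectiveSpectrum 𝒜)
    (hp : (p : Proj 𝒜) ∈ Proj.basicOpen 𝒜 f) (y : Away 𝒜 f) :
    valueAt p hp (Proj.awayToSection 𝒜 f y) =
      HomogeneousLocalization.mapId 𝒜 (Submonoid.powers_le.mpr hp) y := rfl

lemma topIso_inv_appTop {X Y : Scheme.{u}} (U : X.Opens) (g : Y ⟶ U.toScheme)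
    (e : (⊤ : Y.Opens) ≤ (g ≫ U.ι) ⁻¹ᵁ U) :
    U.topIso.inv ≫ g.appTop = (g ≫ U.ι).appLE U ⊤ e := by
  have h1 : U.topIso.inv = U.ι.appLE U ⊤ (by simp) := by
    simp
    rfl
  have h2 : g.appTop = g.appLE ⊤ ⊤ le_top := g.app_eq_appLE
  rw [h1, h2]
  exact Scheme.Hom.appLE_comp_appLE _ _ _ _ _ _ _

lemma toSpecZero_appTop : (Scheme.ΓSpecIso _).inv ≫ (Proj.toSpecZero 𝒜).appTop =
    CommRingCat.ofHom (fromZeroRingHom 𝒜 _) ≫ Proj.awayToSection 𝒜 1 ≫
      (Proj 𝒜).presheaf.map (homOfLE (Proj.basicOpen_one 𝒜).ge).op := by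
  rw [Proj.toSpecZero, Proj.basicOpenToSpec]
  simp only [Scheme.Hom.comp_appTop, Category.assoc]
  rw [← Scheme.ΓSpecIso_inv_naturality_assoc, ← Scheme.ΓSpecIso_inv_naturality_assoc]
  congr 2
  rw [Scheme.Opens.toSpecΓ_appTop, Category.assoc, Iso.inv_hom_id_assoc, ← Scheme.Hom.comp_appTop]
  have h2 : ((Proj 𝒜).topIso.inv ≫ ((Proj 𝒜).isoOfEq (Proj.basicOpen_one 𝒜)).inv) ≫
      (Proj.basicOpen 𝒜 1).ι = 𝟙 _ := by
    rw [Category.assoc, Scheme.isoOfEq_inv_ι, Scheme.toIso_inv_ι]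
  have h3 : ∀ (g : Proj 𝒜 ⟶ Proj 𝒜) (hg : g = 𝟙 _) (e : ⊤ ≤ g ⁻¹ᵁ Proj.basicOpen 𝒜 1),
      g.appLE (Proj.basicOpen 𝒜 1) ⊤ e =
        (Proj 𝒜).presheaf.map (homOfLE (Proj.basicOpen_one 𝒜).ge).op := by
    intro g hg e
    subst hg
    rw [Scheme.Hom.appLE]
    exact Category.id_comp _
  exact (topIso_inv_appTop _ _ (by rw [h2]; exact (Proj.basicOpen_one 𝒜).ge)).trans (h3 _ h2 _)

lemma valueAt_toSpecZero (V : (Proj 𝒜).Opens) (p : ProjectiveSpectrum 𝒜) (hp : (p : Proj 𝒜) ∈ V)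
    (a : 𝒜 0) :
    valueAt p hp ((Proj.toSpecZero 𝒜).appLE ⊤ V le_top ((Scheme.ΓSpecIso _).inv a)) =
      fromZeroRingHom 𝒜 _ a := by
  have h1 := congrArg (fun g => valueAt (U := ⊤) p trivial (g.hom a)) (toSpecZero_appTop (𝒜 := 𝒜))
  exact h1

end GrDer

end Pool.Agent.Helper413.Quad
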