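import Mathlib
import Pool.Agent.Helper413.Quad.Defs
import Pool.Agent.Helper413.Quad.GrDer

open AlgebraicGeometry CategoryTheory HomogeneousLocalization

universe u

namespace Pool.Agent.Helper413.Quad

section Gen

variable {A : Type u} [CommRing A] [IsDomain A] {σ : Type*} [SetLike σ A] [AddSubgroupClass σ A]
  (𝒜 : ℕ → σ) [GradedRing 𝒜]

/-- the generic point of `Proj` -/
noncomputable def genPt (h : ∃ n, 0 < n ∧ ∃ f ∈ 𝒜 n, f ≠ 0) : ProjectiveSpectrum 𝒜 :=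
  ⟨⊥, by rw [HomogeneousIdeal.toIdeal_bot]; exact Ideal.isPrime_bot, by
    intro hle
    obtain ⟨n, hn, f, hf, hf0⟩ := h
    have h1 : f ∈ (⊥ : HomogeneousIdeal 𝒜) := hle (HomogeneousIdeal.mem_irrelevant_of_mem _ hn hf)
    exact hf0 h1⟩

variable {𝒜}

lemma genPt_mem (h : ∃ n, 0 < n ∧ ∃ f ∈ 𝒜 n, f ≠ 0) (U : (Proj 𝒜).Opens) (p : ProjectiveSpectrum 𝒜)
    (hp : (p : Proj 𝒜) ∈ U) : (genPt 𝒜 h : Proj 𝒜) ∈ U := by
  have h1 : p ∈ closure {genPt 𝒜 h} := by
    rw [← ProjectiveSpectrum.le_iff_mem_closure]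
    intro a ha
    have ha' : a = 0 := ha
    rw [ha']
    exact zero_mem _
  obtain ⟨y, hy1, hy2⟩ := mem_closure_iff.1 h1 U.1 U.2 hp
  rw [← (hy2 : y = genPt 𝒜 h)]
  exact hy1

lemma irreducibleSpace_Proj (h : ∃ n, 0 < n ∧ ∃ f ∈ 𝒜 n, f ≠ 0) : IrreducibleSpace (Proj 𝒜) := by
  let g : Proj 𝒜 := genPt 𝒜 h
  have h1 : closure ({g} : Set (Proj 𝒜)) = Set.univ := by
    rw [Set.eq_univ_iff_forall]
    intro p
    rw [mem_closure_iff]
    intro U hU hp
    exact ⟨genPt 𝒜 h, genPt_mem h ⟨U, hU⟩ p hp, rfl⟩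
  have h2 : IsIrreducible (Set.univ : Set (Proj 𝒜)) := by
    rw [← h1]
    exact isIrreducible_singleton.closure
  exact (irreducibleSpace_def _).2 h2

instance isDomain_Loc (p : ProjectiveSpectrum 𝒜) : IsDomain (Loc 𝒜 p) := by
  have h1 : IsDomain (Localization.AtPrime p.asHomogeneousIdeal.toIdeal) :=
    IsLocalization.isDomain_localization (Ideal.primeCompl_le_nonZeroDivisors _)
  have h2 : Function.Injective (algebraMap (Loc 𝒜 p)
      (Localization.AtPrime p.asHomogeneousIdeal.toIdeal)) :=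
    HomogeneousLocalization.val_injective _
  exact Function.Injective.isDomain (algebraMap (Loc 𝒜 p)
      (Localization.AtPrime p.asHomogeneousIdeal.toIdeal)) h2

lemma isIntegral_Proj (h : ∃ n, 0 < n ∧ ∃ f ∈ 𝒜 n, f ≠ 0) : IsIntegral (Proj 𝒜) := by
  have h1 : ∀ p : Proj 𝒜, _root_.IsReduced ((Proj 𝒜).presheaf.stalk p) := by
    intro p
    have h2 : IsDomain (Loc 𝒜 p) := isDomain_Loc (𝒜 := 𝒜) p
    exact isReduced_of_injective (Proj.stalkIso 𝒜 p).hom.hom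
      (Proj.stalkIso 𝒜 p).commRingCatIsoToRingEquiv.injective
  have h2 : IsReduced (Proj 𝒜) := isReduced_of_isReduced_stalk _
  have h3 := irreducibleSpace_Proj (𝒜 := 𝒜) h
  exact isIntegral_of_irreducibleSpace_of_isReduced _

end Gen

end Pool.Agent.Helper413.Quad
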