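import Mathlib
import Pool.Agent.Helper413.Quad.Defs
import Pool.Agent.Helper413.Quad.GrDer
import Pool.Agent.Helper413.Quad.Gen

open AlgebraicGeometry CategoryTheory HomogeneousLocalization HomogeneousIdeal

universe u

namespace Pool.Agent.Helper413.Quad

section CI

variable {A B σ τ : Type u} [CommRing A] [SetLike σ A] [AddSubgroupClass σ A]
  [CommRing B] [SetLike τ B] [AddSubgroupClass τ B]
  {𝒜 : ℕ → σ} {ℬ : ℕ → τ} [GradedRing 𝒜] [GradedRing ℬ]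
  (f : 𝒜 →+*ᵍ ℬ) (hf : ℬ₊ ≤ 𝒜₊.map f)

lemma restrict_eq {i : ℕ} (hi : 0 < i) (s : A) (hs : s ∈ 𝒜 i) :
    (Proj.map f hf ∣_ Proj.basicOpen 𝒜 s) =
      (Proj.basicOpenIsoSpec ℬ (f s) (f.2 hs) hi).hom ≫
        Spec.map (CommRingCat.ofHom (Away.map f s)) ≫
          (Proj.basicOpenIsoSpec 𝒜 s hs hi).inv := by
  apply (cancel_mono (Proj.basicOpen 𝒜 s).ι).1
  refine (morphismRestrict_ι _ _).trans ?_
  have h1 : (Proj.basicOpenIsoSpec ℬ (f s) (f.2 hs) hi).hom ≫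
      Proj.awayι ℬ (f s) (f.2 hs) hi = (Proj.basicOpen ℬ (f s)).ι := by
    rw [← Proj.basicOpenIsoSpec_inv_ι, Iso.hom_inv_id_assoc]
  have h2 : (Proj.basicOpen ℬ (f s)).ι ≫ Proj.map f hf =
      ((Proj.basicOpenIsoSpec ℬ (f s) (f.2 hs) hi).hom ≫
        Spec.map (CommRingCat.ofHom (Away.map f s)) ≫
          (Proj.basicOpenIsoSpec 𝒜 s hs hi).inv) ≫ (Proj.basicOpen 𝒜 s).ι := by
    rw [← h1, Category.assoc, Category.assoc, Category.assoc, Proj.basicOpenIsoSpec_inv_ι,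
      Proj.awayι_comp_map f hf hi s hs]
  exact h2

lemma away_map_surjective {i : ℕ} (s : A) (hs : s ∈ 𝒜 i)
    (hsurj : ∀ n, ∀ b ∈ ℬ n, ∃ a ∈ 𝒜 n, f a = b) :
    Function.Surjective (Away.map f s) := by
  intro y
  obtain ⟨n, b, hb, rfl⟩ := Away.mk_surjective ℬ (f.2 hs) y
  obtain ⟨a, ha, rfl⟩ := hsurj _ b hb
  refine ⟨Away.mk 𝒜 hs n a ha, ?_⟩
  rw [Away.map_mk]

lemma iSup_basicOpen_top : (⨆ s : (Σ i : PNat, 𝒜 i), Proj.basicOpen 𝒜 (s.2 : A)) = ⊤ := by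
  classical
  apply Proj.iSup_basicOpen_eq_top
  intro z hz
  rw [← DirectSum.sum_support_decompose 𝒜 z]
  refine Ideal.sum_mem _ fun c hc ↦ if hc0 : c = 0 then ?_ else
    Ideal.subset_span ⟨⟨⟨c, Nat.pos_iff_ne_zero.mpr hc0⟩, _⟩, rfl⟩
  convert! Ideal.zero_mem _
  subst hc0
  exact hz

lemma isClosedImmersion_map (hsurj : ∀ n, ∀ b ∈ ℬ n, ∃ a ∈ 𝒜 n, f a = b) :
    IsClosedImmersion (Proj.map f hf) := by
  rw [IsZariskiLocalAtTarget.iff_of_iSup_eq_top (P := @IsClosedImmersion)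
    (fun s : (Σ i : PNat, 𝒜 i) => Proj.basicOpen 𝒜 (s.2 : A)) iSup_basicOpen_top]
  rintro ⟨⟨i, hi⟩, ⟨s, hs⟩⟩
  rw [restrict_eq f hf hi s hs]
  have h1 : IsClosedImmersion (Spec.map (CommRingCat.ofHom (Away.map f s))) :=
    IsClosedImmersion.spec_of_surjective _ (away_map_surjective f s hs hsurj)
  have h2 : IsClosedImmersion (Spec.map (CommRingCat.ofHom (Away.map f s)) ≫
      (Proj.basicOpenIsoSpec 𝒜 s hs hi).inv) := inferInstance
  have h3 : IsClosedImmersion ((Proj.basicOpenIsoSpec ℬ (f s) (f.2 hs) hi).hom ≫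
      Spec.map (CommRingCat.ofHom (Away.map f s)) ≫
      (Proj.basicOpenIsoSpec 𝒜 s hs hi).inv) := IsClosedImmersion.comp _ _
  exact h3

end CI

end Pool.Agent.Helper413.Quad
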