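import Mathlib

open MvPolynomial DirectSum

universe u

namespace Pool.Agent.Helper413.Quad


variable (k : Type u) [Field k]

/-- the polynomial ring in `x0, x1, x2, x3` -/
abbrev R := MvPolynomial (Fin 4) k

/-- the quadratic form `x0 x1 + x2 x3` -/
noncomputable def q0 : R k := X 0 * X 1 + X 2 * X 3

/-- the ring `k[x0,x1,x2,x3,z]/(z^2 - x0 x1 - x2 x3)` -/
abbrev A := QuadraticAlgebra (R k) (q0 k) 0

/-- the degree `n - 1` part of `k[x0,x1,x2,x3]` -/
noncomputable def shiftH : ℕ → Submodule k (R k)
  | 0 => ⊥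
  | n + 1 => homogeneousSubmodule (Fin 4) k n

/-- the grading -/
noncomputable def gr (n : ℕ) : Submodule k (A k) where
  carrier := {a | a.re ∈ homogeneousSubmodule (Fin 4) k n ∧ a.im ∈ shiftH k n}
  add_mem' := by
    rintro a b ⟨h1, h2⟩ ⟨h3, h4⟩
    exact ⟨add_mem h1 h3, add_mem h2 h4⟩
  zero_mem' := ⟨zero_mem _, zero_mem _⟩
  smul_mem' := by
    rintro c a ⟨h1, h2⟩
    exact ⟨Submodule.smul_mem _ _ h1, Submodule.smul_mem _ _ h2⟩

lemma mem_gr {n : ℕ} {a : A k} :
    a ∈ gr k n ↔ a.re ∈ homogeneousSubmodule (Fin 4) k n ∧ a.im ∈ shiftH k n := Iff.rfl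

lemma q0_mem : q0 k ∈ homogeneousSubmodule (Fin 4) k 2 := by
  rw [mem_homogeneousSubmodule]
  exact ((isHomogeneous_X k 0).mul (isHomogeneous_X k 1)).add
    ((isHomogeneous_X k 2).mul (isHomogeneous_X k 3))

lemma H_mul {m n : ℕ} {f g : R k} (hf : f ∈ homogeneousSubmodule (Fin 4) k m)
    (hg : g ∈ homogeneousSubmodule (Fin 4) k n) : f * g ∈ homogeneousSubmodule (Fin 4) k (m + n) := by
  rw [mem_homogeneousSubmodule] at *
  exact hf.mul hg

lemma H_mul_shift {m n : ℕ} {f g : R k} (hf : f ∈ homogeneousSubmodule (Fin 4) k m)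
    (hg : g ∈ shiftH k n) : f * g ∈ shiftH k (m + n) := by
  cases n with
  | zero =>
    have : g = 0 := hg
    rw [this, mul_zero]
    exact zero_mem _
  | succ n => exact H_mul k hf hg

lemma shift_mul_shift {m n : ℕ} {f g : R k} (hf : f ∈ shiftH k m)
    (hg : g ∈ shiftH k n) : q0 k * f * g ∈ homogeneousSubmodule (Fin 4) k (m + n) := by
  cases n with
  | zero =>
    have : g = 0 := hg
    rw [this, mul_zero]
    exact zero_mem _
  | succ n =>
    cases m with
    | zero =>
      have : f = 0 := hf
      rw [this, mul_zero, zero_mul]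
      exact zero_mem _
    | succ m =>
      have h1 := H_mul k (H_mul k (q0_mem k) hf) hg
      rwa [show 2 + m + n = m + 1 + (n + 1) by ring] at h1

instance : SetLike.GradedMonoid (gr k) where
  one_mem := ⟨isHomogeneous_one _ _, zero_mem _⟩
  mul_mem := by
    rintro m n a b ⟨h1, h2⟩ ⟨h3, h4⟩
    refine ⟨?_, ?_⟩
    · rw [QuadraticAlgebra.re_mul]
      exact add_mem (H_mul k h1 h3) (shift_mul_shift k h2 h4)
    · rw [QuadraticAlgebra.im_mul, zero_mul, zero_mul, add_zero]
      refine add_mem (H_mul_shift k h1 h4) ?_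
      rw [mul_comm, add_comm m n]
      exact H_mul_shift k h3 h2

attribute [local instance] MvPolynomial.gradedAlgebra

/-- inclusion of the even part -/
noncomputable def inclRe (n : ℕ) : homogeneousSubmodule (Fin 4) k n →ₗ[k] gr k n where
  toFun f := ⟨⟨f.1, 0⟩, f.2, zero_mem _⟩
  map_add' f g := by apply Subtype.ext; ext <;> simp
  map_smul' c f := by apply Subtype.ext; ext <;> simp

/-- inclusion of the odd part -/
noncomputable def inclIm (n : ℕ) : homogeneousSubmodule (Fin 4) k n →ₗ[k] gr k (n + 1) where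
  toFun f := ⟨⟨0, f.1⟩, zero_mem _, f.2⟩
  map_add' f g := by apply Subtype.ext; ext <;> simp
  map_smul' c f := by apply Subtype.ext; ext <;> simp

noncomputable def decRe : R k →ₗ[k] ⨁ n, gr k n :=
  (DirectSum.toModule k ℕ _ fun n => DirectSum.lof k ℕ (fun n => gr k n) n ∘ₗ inclRe k n) ∘ₗ
    (DirectSum.decomposeLinearEquiv (homogeneousSubmodule (Fin 4) k)).toLinearMap

noncomputable def decIm : R k →ₗ[k] ⨁ n, gr k n :=
  (DirectSum.toModule k ℕ _ fun n => DirectSum.lof k ℕ (fun n => gr k n) (n + 1) ∘ₗ inclIm k n) ∘ₗ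
    (DirectSum.decomposeLinearEquiv (homogeneousSubmodule (Fin 4) k)).toLinearMap

lemma decRe_of {n : ℕ} (f : homogeneousSubmodule (Fin 4) k n) :
    decRe k f.1 = DirectSum.lof k ℕ (fun n => gr k n) n (inclRe k n f) := by
  rw [decRe, LinearMap.comp_apply, LinearEquiv.coe_coe, decomposeLinearEquiv_apply_coe,
    DirectSum.toModule_lof]
  rfl

lemma decIm_of {n : ℕ} (f : homogeneousSubmodule (Fin 4) k n) :
    decIm k f.1 = DirectSum.lof k ℕ (fun n => gr k n) (n + 1) (inclIm k n f) := by
  rw [decIm, LinearMap.comp_apply, LinearEquiv.coe_coe, decomposeLinearEquiv_apply_coe,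
    DirectSum.toModule_lof]
  rfl

/-- real part as a `k`-linear map -/
noncomputable def reL : A k →ₗ[k] R k where
  toFun a := a.re
  map_add' _ _ := rfl
  map_smul' _ _ := rfl

/-- imaginary part as a `k`-linear map -/
noncomputable def imL : A k →ₗ[k] R k where
  toFun a := a.im
  map_add' _ _ := rfl
  map_smul' _ _ := rfl

noncomputable def dec : A k →ₗ[k] ⨁ n, gr k n := decRe k ∘ₗ reL k + decIm k ∘ₗ imL k

noncomputable instance : GradedAlgebra (gr k) where
  toDecomposition := Decomposition.ofLinearMap (gr k) (dec k)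
    (by
      apply LinearMap.ext
      intro a
      have h1 : ∀ f : R k, DirectSum.coeLinearMap (gr k) (decRe k f) = ⟨f, 0⟩ := by
        intro f
        induction f using DirectSum.Decomposition.inductionOn
          (homogeneousSubmodule (Fin 4) k) with
        | zero => rw [map_zero, map_zero]; rfl
        | homogeneous f => rw [decRe_of, DirectSum.coeLinearMap_lof]; rfl
        | add f g hf hg => rw [map_add, map_add, hf, hg]; ext <;> simp
      have h2 : ∀ f : R k, DirectSum.coeLinearMap (gr k) (decIm k f) = ⟨0, f⟩ := by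
        intro f
        induction f using DirectSum.Decomposition.inductionOn
          (homogeneousSubmodule (Fin 4) k) with
        | zero => rw [map_zero, map_zero]; rfl
        | homogeneous f => rw [decIm_of, DirectSum.coeLinearMap_lof]; rfl
        | add f g hf hg => rw [map_add, map_add, hf, hg]; ext <;> simp
      rw [LinearMap.comp_apply, dec, LinearMap.add_apply, map_add, LinearMap.comp_apply,
        LinearMap.comp_apply, h1, h2]
      ext <;> simp [reL, imL])
    (by
      apply DirectSum.linearMap_ext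
      intro n
      apply LinearMap.ext
      rintro ⟨a, ha⟩
      rw [LinearMap.comp_apply, LinearMap.comp_apply, DirectSum.coeLinearMap_lof, dec,
        LinearMap.add_apply, LinearMap.comp_apply, LinearMap.comp_apply]
      change decRe k a.re + decIm k a.im = DirectSum.lof k ℕ (fun n => gr k n) n ⟨a, ha⟩
      have h1 := decRe_of k ⟨a.re, ha.1⟩
      simp only at h1
      rw [h1]
      cases n with
      | zero =>
        have h2 : a.im = 0 := ha.2
        have h4 : decIm k a.im = 0 := by rw [h2, map_zero]
        rw [h4, add_zero]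
        congr 1
        apply Subtype.ext
        ext : 1
        · rfl
        · exact h2.symm
      | succ n =>
        have h3 := decIm_of k ⟨a.im, ha.2⟩
        simp only at h3
        rw [h3, ← map_add]
        congr 1
        apply Subtype.ext
        ext : 1
        · change a.re + 0 = _
          rw [add_zero]
        · change 0 + a.im = _
          rw [zero_add])

/-- the degree `-1` derivation `d/dz` -/
noncomputable def dz : A k →+ A k where
  toFun a := ⟨a.im, 0⟩
  map_zero' := rfl
  map_add' a b := by ext : 1 <;> simp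

lemma two_eq [CharP k 2] : (2 : R k) = 0 := by
  have h1 : (C (2 : k) : R k) = 2 := map_ofNat C 2
  rw [← h1, CharTwo.two_eq_zero, C_0]

lemma dz_mul [CharP k 2] (a b : A k) : dz k (a * b) = a * dz k b + b * dz k a := by
  have h2 : (2 : R k) = 0 := two_eq k
  ext : 1
  · simp only [dz, AddMonoidHom.coe_mk, ZeroHom.coe_mk, QuadraticAlgebra.im_mul,
      QuadraticAlgebra.re_mul, QuadraticAlgebra.re_add]
    ring
  · simp only [dz, AddMonoidHom.coe_mk, ZeroHom.coe_mk, QuadraticAlgebra.im_mul,
      QuadraticAlgebra.im_add]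
    linear_combination (-(a.im * b.im)) * h2

lemma dz_mem {n : ℕ} {a : A k} (ha : a ∈ gr k (n + 1)) : dz k a ∈ gr k n := ⟨ha.2, zero_mem _⟩

lemma dz_zero_deg {a : A k} (ha : a ∈ gr k 0) : dz k a = 0 := by
  ext : 1
  · exact ha.2
  · rfl

instance [CharP k 2] : IsDomain (A k) := by
  have h2 : (2 : R k) = 0 := two_eq k
  have key : ∀ a : A k, a.re * a.re = q0 k * a.im * a.im → a = 0 := by
    intro a ha
    have h1 := congrArg (pderiv (0 : Fin 4)) ha
    rw [Derivation.leibniz, Derivation.leibniz, Derivation.leibniz] at h1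
    have h3 : pderiv (0 : Fin 4) (q0 k) = X 1 := by
      simp [q0, pderiv_X]
    rw [h3] at h1
    simp only [smul_eq_mul] at h1
    have h4 : X 1 * (a.im * a.im) = (0 : R k) := by
      linear_combination (-1 : R k) * h1 + (a.re * pderiv 0 a.re - q0 k * a.im * pderiv 0 a.im) * h2
    have h5 : a.im = 0 := by
      rcases mul_eq_zero.1 h4 with h | h
      · exact absurd h (X_ne_zero 1)
      · exact mul_self_eq_zero.1 h
    have h6 : a.re = 0 := by
      rw [h5, mul_zero] at ha
      exact mul_self_eq_zero.1 ha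
    ext : 1
    · exact h6
    · exact h5
  have : NoZeroDivisors (A k) := by
    constructor
    intro a b hab
    have h3 : QuadraticAlgebra.norm a * QuadraticAlgebra.norm b = 0 := by
      rw [← map_mul, hab, QuadraticAlgebra.norm_zero]
    rcases mul_eq_zero.1 h3 with h | h
    · left
      apply key
      rw [QuadraticAlgebra.norm_def] at h
      linear_combination h
    · right
      apply key
      rw [QuadraticAlgebra.norm_def] at h
      linear_combination h
  exact NoZeroDivisors.to_isDomain _


section Chart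

/-- the coordinates `x j` -/
noncomputable def x (j : Fin 4) : A k := ⟨X j, 0⟩

/-- the coordinate `z` -/
noncomputable def z : A k := ⟨0, 1⟩

lemma x_mem (j : Fin 4) : x k j ∈ gr k 1 := ⟨isHomogeneous_X k j, zero_mem _⟩

lemma z_mem : z k ∈ gr k 1 := ⟨zero_mem _, isHomogeneous_one _ _⟩

lemma x_ne_zero (j : Fin 4) : x k j ≠ 0 := by
  intro h
  exact X_ne_zero j (congrArg QuadraticAlgebra.re h)

/-- constants -/
noncomputable def cst (c : k) : A k := ⟨C c, 0⟩

lemma cst_mem (c : k) : cst k c ∈ gr k 0 := ⟨isHomogeneous_C _ _, zero_mem _⟩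

lemma aeval_scale {B : Type*} [CommRing B] [Algebra k B] {n : ℕ} {f : R k}
    (hf : f ∈ homogeneousSubmodule (Fin 4) k n) (v : Fin 4 → B) (T : B) :
    aeval (fun j => T * v j) f = T ^ n * aeval v f := by
  rw [aeval_def, aeval_def, eval₂_eq', eval₂_eq', Finset.mul_sum]
  apply Finset.sum_congr rfl
  intro d hd
  have h1 : ∏ i, (T * v i) ^ d i = T ^ n * ∏ i, v i ^ d i := by
    rw [← show ∑ i, d i = n from ?_, ← Finset.prod_pow_eq_pow_sum, ← Finset.prod_mul_distrib]
    · apply Finset.prod_congr rfl
      intro i _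
      rw [mul_pow]
    · have h2 := (mem_homogeneousSubmodule n f).1 hf (mem_support_iff.1 hd)
      rw [← h2, Finsupp.weight_apply, Finsupp.sum_fintype _ _ (by simp)]
      simp
  rw [h1]
  ring

/-- the data of one of the four standard charts -/
structure Chart (i : Fin 4) where
  i' : Fin 4
  a : Fin 4
  b : Fin 4
  hq : q0 k = X i * X i' + X a * X b
  hii' : i' ≠ i
  hai : a ≠ i
  hbi : b ≠ i
  hai' : i' ≠ a
  hbi' : i' ≠ b
  hab : b ≠ a
  hall : ∀ j, j = i ∨ j = a ∨ j = b ∨ j = i'

/-- the four charts -/
noncomputable def chart (j : Fin 4) : Chart k j :=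
  match j with
  | 0 => ⟨1, 2, 3, rfl, by decide, by decide, by decide, by decide, by decide, by decide,
      by decide⟩
  | 1 => ⟨0, 2, 3, by rw [q0, mul_comm (X 0) (X 1)], by decide, by decide, by decide,
      by decide, by decide, by decide, by decide⟩
  | 2 => ⟨3, 0, 1, by rw [q0, add_comm], by decide, by decide, by decide, by decide,
      by decide, by decide, by decide⟩
  | 3 => ⟨2, 0, 1, by rw [q0, add_comm, mul_comm (X 2) (X 3)], by decide, by decide,
      by decide, by decide, by decide, by decide, by decide⟩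

variable {k}
variable {i : Fin 4} (c : Chart k i)

/-- the coordinate functions in the chart -/
noncomputable def Chart.v (j : Fin 4) : MvPolynomial (Fin 3) k :=
  if j = i then 1 else if j = c.a then X 0 else if j = c.b then X 1 else X 2 ^ 2 - X 0 * X 1

lemma Chart.v_i : c.v i = 1 := by simp [Chart.v]
lemma Chart.v_a : c.v c.a = X 0 := by simp [Chart.v, c.hai]
lemma Chart.v_b : c.v c.b = X 1 := by simp [Chart.v, c.hbi, c.hab]
lemma Chart.v_i' : c.v c.i' = X 2 ^ 2 - X 0 * X 1 := by simp [Chart.v, c.hii', c.hai', c.hbi']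

lemma Chart.v_q0 : aeval c.v (q0 k) = X 2 ^ 2 := by
  rw [c.hq, map_add, map_mul, map_mul, aeval_X, aeval_X, aeval_X, aeval_X, c.v_i, c.v_i', c.v_a,
    c.v_b]
  ring

/-- dehomogenisation -/
noncomputable def Chart.dehom : A k →+* MvPolynomial (Fin 3) k where
  toFun a := aeval c.v a.re + aeval c.v a.im * X 2
  map_one' := by
    change aeval c.v 1 + aeval c.v 0 * X 2 = 1
    simp
  map_zero' := by
    change aeval c.v 0 + aeval c.v 0 * X 2 = 0
    simp
  map_add' a b := by
    simp only [QuadraticAlgebra.re_add, QuadraticAlgebra.im_add, map_add]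
    ring
  map_mul' a b := by
    simp only [QuadraticAlgebra.re_mul, QuadraticAlgebra.im_mul, map_add, map_mul, c.v_q0, map_zero]
    ring

lemma Chart.dehom_apply (a : A k) :
    c.dehom a = aeval c.v a.re + aeval c.v a.im * X 2 := rfl

lemma Chart.dehom_x (j : Fin 4) : c.dehom (x k j) = c.v j := by
  simp [Chart.dehom_apply, x]

lemma Chart.dehom_z : c.dehom (z k) = X 2 := by
  simp [Chart.dehom_apply, z]

lemma Chart.dehom_cst (r : k) : c.dehom (cst k r) = C r := by
  simp [Chart.dehom_apply, cst, algebraMap_eq]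

/-- the chart map -/
noncomputable def Chart.lift : Localization.Away (x k i) →+* MvPolynomial (Fin 3) k :=
  IsLocalization.Away.lift (x k i) (g := c.dehom) (by
    rw [c.dehom_x, c.v_i]; exact isUnit_one)

lemma Chart.lift_algebraMap (a : A k) : c.lift (algebraMap _ _ a) = c.dehom a :=
  IsLocalization.Away.lift_eq _ _ _

open HomogeneousLocalization in
noncomputable def Chart.theta : Away (gr k) (x k i) →+* MvPolynomial (Fin 3) k :=
  c.lift.comp (algebraMap (Away (gr k) (x k i)) (Localization.Away (x k i)))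

open HomogeneousLocalization in
lemma val_mk_mul {f : A k} (hf : f ∈ gr k 1) (n : ℕ) (a : A k) (ha : a ∈ gr k (n • 1)) :
    (Away.mk (gr k) hf n a ha).val * algebraMap (A k) (Localization.Away f) (f ^ n) =
      algebraMap _ _ a := by
  rw [Away.val_mk, Localization.mk_eq_mk']
  exact IsLocalization.mk'_spec (M := Submonoid.powers f) (Localization.Away f) a ⟨f ^ n, n, rfl⟩

open HomogeneousLocalization in
lemma Chart.theta_mk (n : ℕ) (a : A k) (ha : a ∈ gr k (n • 1)) :
    c.theta (Away.mk (gr k) (x_mem k i) n a ha) = c.dehom a := by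
  have h1 := congrArg c.lift (val_mk_mul (x_mem k i) n a ha)
  rw [map_mul, c.lift_algebraMap, c.lift_algebraMap, map_pow, c.dehom_x, c.v_i, one_pow,
    mul_one] at h1
  exact h1

/-- homogenisation -/
noncomputable def Chart.rho : MvPolynomial (Fin 3) k →ₐ[k] Localization.Away (x k i) :=
  aeval ![IsLocalization.Away.invSelf (x k i) * algebraMap _ _ (x k c.a),
    IsLocalization.Away.invSelf (x k i) * algebraMap _ _ (x k c.b),
    IsLocalization.Away.invSelf (x k i) * algebraMap _ _ (z k)]

lemma x_rel : z k * z k = x k i * x k c.i' + x k c.a * x k c.b := by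
  ext : 1
  · simp only [z, x, QuadraticAlgebra.re_mul, QuadraticAlgebra.re_add]
    rw [c.hq]
    ring
  · simp [z, x]

lemma Chart.rho_v (j : Fin 4) : c.rho (c.v j) =
    IsLocalization.Away.invSelf (x k i) * algebraMap _ _ (x k j) := by
  have hinv : algebraMap (A k) (Localization.Away (x k i)) (x k i) *
    IsLocalization.Away.invSelf (x k i) = 1 := IsLocalization.Away.mul_invSelf _
  rcases c.hall j with h | h | h | h
  · rw [h, c.v_i, map_one, mul_comm, hinv]
  · rw [h, c.v_a, Chart.rho, aeval_X]
    rfl
  · rw [h, c.v_b, Chart.rho, aeval_X]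
    rfl
  · rw [h, c.v_i', map_sub, map_mul, map_pow, Chart.rho, aeval_X, aeval_X, aeval_X]
    simp only [Matrix.cons_val]
    have h1 := congrArg (algebraMap (A k) (Localization.Away (x k i))) (x_rel c)
    rw [map_mul, map_add, map_mul, map_mul] at h1
    set T : Localization.Away (x k i) := IsLocalization.Away.invSelf (x k i)
    linear_combination T ^ 2 * h1 + T * algebraMap (A k) (Localization.Away (x k i)) (x k c.i') * hinv

/-- the embedding of the even part -/
noncomputable def evenHom : R k →ₐ[k] A k := aeval (x k)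

lemma evenHom_apply (f : R k) : evenHom f = (⟨f, 0⟩ : A k) := by
  have h1 : evenHom = ((IsScalarTower.toAlgHom k (R k) (A k))) := by
    apply MvPolynomial.algHom_ext
    intro i
    rw [evenHom, aeval_X]
    rfl
  rw [h1]
  rfl

lemma Chart.rho_aeval {n : ℕ} {f : R k} (hf : f ∈ homogeneousSubmodule (Fin 4) k n) :
    c.rho (aeval c.v f) = IsLocalization.Away.invSelf (x k i) ^ n *
      algebraMap (A k) (Localization.Away (x k i)) (⟨f, 0⟩ : A k) := by
  have h1 : c.rho (aeval c.v f) = aeval (fun j => IsLocalization.Away.invSelf (x k i) *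
      algebraMap (A k) (Localization.Away (x k i)) (x k j)) f := by
    rw [← AlgHom.comp_apply, MvPolynomial.comp_aeval]
    congr 2
    funext j
    exact c.rho_v j
  rw [h1, aeval_scale k hf, ← evenHom_apply]
  congr 1
  rw [evenHom, ← MvPolynomial.aeval_algebraMap_apply]
  rfl

lemma Chart.rho_dehom {n : ℕ} {a : A k} (ha : a ∈ gr k n) :
    c.rho (c.dehom a) = IsLocalization.Away.invSelf (x k i) ^ n *
      algebraMap (A k) (Localization.Away (x k i)) a := by
  have hX2 : c.rho (X 2) = IsLocalization.Away.invSelf (x k i) *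
      algebraMap (A k) (Localization.Away (x k i)) (z k) := by
    rw [Chart.rho, aeval_X]
    rfl
  rw [c.dehom_apply, map_add, map_mul, c.rho_aeval ha.1, hX2]
  have h1 : a = (⟨a.re, 0⟩ : A k) + (⟨a.im, 0⟩ : A k) * z k := by
    ext : 1 <;> simp [z]
  cases n with
  | zero =>
    have h2 : a.im = 0 := ha.2
    rw [h2, map_zero, map_zero, zero_mul, add_zero]
    have h3 : a = (⟨a.re, 0⟩ : A k) := by
      ext : 1
      · rfl
      · exact h2
    rw [← h3]
  | succ n =>
    rw [c.rho_aeval ha.2]
    conv_rhs => rw [h1, map_add, map_mul]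
    ring

open HomogeneousLocalization in
lemma Chart.theta_injective : Function.Injective c.theta := by
  rw [injective_iff_map_eq_zero]
  intro y hy
  obtain ⟨n, a, ha, rfl⟩ := Away.mk_surjective (gr k) (x_mem k i) y
  rw [c.theta_mk] at hy
  have ha' : a ∈ gr k n := by simpa using ha
  have h1 := c.rho_dehom ha'
  rw [hy, map_zero] at h1
  apply HomogeneousLocalization.val_injective
  have h2 := val_mk_mul (x_mem k i) n a ha
  have hinv : algebraMap (A k) (Localization.Away (x k i)) (x k i) *
    IsLocalization.Away.invSelf (x k i) = 1 := IsLocalization.Away.mul_invSelf _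
  have h3 : (Away.mk (gr k) (x_mem k i) n a ha).val =
      (Away.mk (gr k) (x_mem k i) n a ha).val * algebraMap (A k) (Localization.Away (x k i)) (x k i ^ n) *
      IsLocalization.Away.invSelf (x k i) ^ n := by
    rw [map_pow, mul_assoc, ← mul_pow, hinv, one_pow, mul_one]
  rw [h3, h2, mul_comm, ← h1, val_zero]

open HomogeneousLocalization in
lemma Chart.theta_surjective : Function.Surjective c.theta := by
  intro p
  induction p using MvPolynomial.induction_on with
  | C r =>
    refine ⟨Away.mk (gr k) (x_mem k i) 0 (cst k r) (by simpa using cst_mem k r), ?_⟩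
    rw [c.theta_mk, c.dehom_cst]
  | add p q hp hq =>
    obtain ⟨y, rfl⟩ := hp
    obtain ⟨y', rfl⟩ := hq
    exact ⟨y + y', map_add _ _ _⟩
  | mul_X p j hp =>
    obtain ⟨y, rfl⟩ := hp
    have h1 : ∃ y', c.theta y' = X j := by
      fin_cases j
      · refine ⟨Away.mk (gr k) (x_mem k i) 1 (x k c.a) (by simpa using x_mem k c.a), ?_⟩
        rw [c.theta_mk, c.dehom_x, c.v_a]
        rfl
      · refine ⟨Away.mk (gr k) (x_mem k i) 1 (x k c.b) (by simpa using x_mem k c.b), ?_⟩
        rw [c.theta_mk, c.dehom_x, c.v_b]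
        rfl
      · refine ⟨Away.mk (gr k) (x_mem k i) 1 (z k) (by simpa using z_mem k), ?_⟩
        rw [c.theta_mk, c.dehom_z]
        rfl
    obtain ⟨y', h1⟩ := h1
    exact ⟨y * y', by rw [map_mul, h1]⟩

open HomogeneousLocalization in
/-- the standard charts are affine spaces -/
noncomputable def Chart.equiv : Away (gr k) (x k i) ≃+* MvPolynomial (Fin 3) k :=
  RingEquiv.ofBijective c.theta ⟨c.theta_injective, c.theta_surjective⟩

end Chart

end Pool.Agent.Helper413.Quad
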