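import Mathlib
import Pool.Agent.Helper413.Quad.Defs
import Pool.Agent.Helper413.Quad.GrDer
import Pool.Agent.Helper413.Quad.Ring

open MvPolynomial AlgebraicGeometry CategoryTheory HomogeneousLocalization

universe u

namespace Pool.Agent.Helper413.Quad

section projStr

variable {k : Type u} [Field k] {A : Type u} [CommRing A] [Algebra k A] (𝒜 : ℕ → Submodule k A)
  [GradedAlgebra 𝒜]

/-- the structure morphism of `Proj` -/
noncomputable def projStr : Proj 𝒜 ⟶ Spec (CommRingCat.of k) :=
  Proj.toSpecZero 𝒜 ≫ Spec.map (CommRingCat.ofHom (algebraMap k (𝒜 0)))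

lemma valueAt_const (V : (Proj 𝒜).Opens) (p : ProjectiveSpectrum 𝒜) (hp : (p : Proj 𝒜) ∈ V)
    (c : k) : valueAt p hp (constSection (projStr 𝒜) V c) =
      fromZeroRingHom 𝒜 _ (algebraMap k (𝒜 0) c) := by
  rw [← valueAt_toSpecZero V p hp]
  congr 1
  rw [constSection, projStr]
  have h1 := congrArg (fun g => (g.hom c)) (Scheme.ΓSpecIso_inv_naturality
    (CommRingCat.ofHom (algebraMap k (𝒜 0))))
  have h2 : (Proj.toSpecZero 𝒜 ≫ Spec.map (CommRingCat.ofHom (algebraMap k (𝒜 0)))).appLE ⊤ V le_top =
    (Spec.map (CommRingCat.ofHom (algebraMap k (𝒜 0)))).appTop ≫ (Proj.toSpecZero 𝒜).appLE ⊤ V le_top :=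
    Scheme.Hom.comp_appLE _ _ _ _ _
  simp only [CommRingCat.hom_comp, RingHom.comp_apply] at h1
  rw [h2, CommRingCat.comp_apply]
  erw [← h1]
  rfl

/-- vector fields on `Proj` from degree preserving derivations -/
noncomputable def GrDer.vf (E : GrDer 𝒜) (hE : ∀ c : k, E.E (algebraMap k A c) = 0)
    (U : (Proj 𝒜).Opens) : VectorField (projStr 𝒜) U where
  der V _ := E.sec V
  add V _ f g := map_add _ f g
  leibniz V _ f g := by
    apply section_ext
    intro p hp
    rw [valueAt_sec, map_mul, E.der_mul, map_add, map_mul, map_mul, valueAt_sec, valueAt_sec]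
  const V _ c := by
    apply section_ext
    intro p hp
    rw [valueAt_sec, valueAt_const, map_zero]
    change E.der (HomogeneousLocalization.mk ⟨0, algebraMap k (𝒜 0) c, 1, one_mem _⟩) = 0
    rw [E.der_mk]
    apply HomogeneousLocalization.mk_eq_zero_of_num
    apply Subtype.ext
    change E.E (algebraMap k A c) * 1 - algebraMap k A c * E.E 1 = 0
    rw [hE, E.one]
    ring
  res V W _ h f := rfl

end projStr

section X

variable (k : Type u) [Field k]

/-- the quadric threefold -/
noncomputable abbrev XX : Scheme.{u} := Proj (gr k)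

/-- its structure morphism -/
noncomputable abbrev XXstr : XX k ⟶ Spec (CommRingCat.of k) := projStr (gr k)

lemma even_mem (P : Ideal (A k)) (hP : ∀ i, x k i ∈ P) (f : R k) :
    (⟨f, 0⟩ : A k) - cst k (constantCoeff f) ∈ P := by
  induction f using MvPolynomial.induction_on with
  | C c =>
    rw [constantCoeff_C]
    exact (sub_self (cst k c)).symm ▸ P.zero_mem
  | add f g hf hg =>
    have h1 : (⟨f + g, 0⟩ : A k) - cst k (constantCoeff (f + g)) =
        ((⟨f, 0⟩ : A k) - cst k (constantCoeff f)) + ((⟨g, 0⟩ : A k) - cst k (constantCoeff g)) := by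
      ext : 1
      · simp only [cst, QuadraticAlgebra.re_sub, QuadraticAlgebra.re_add, map_add]
        ring
      · simp [cst]
    rw [h1]
    exact P.add_mem hf hg
  | mul_X f j hf =>
    have h1 : (⟨f * X j, 0⟩ : A k) - cst k (constantCoeff (f * X j)) = ⟨f, 0⟩ * x k j := by
      ext : 1
      · simp [cst, x]
      · simp [cst, x]
    rw [h1]
    exact P.mul_mem_left _ (hP j)

/-- the four standard charts cover -/
lemma cover_x (p : ProjectiveSpectrum (gr k)) : ∃ i, x k i ∉ p.asHomogeneousIdeal.toIdeal := by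
  by_contra hcon
  push Not at hcon
  apply p.not_irrelevant_le
  rw [HomogeneousIdeal.irrelevant_le]
  intro n hn a ha
  have ha' : a ∈ gr k n := ha
  have hz : z k ∈ p.asHomogeneousIdeal.toIdeal := by
    have h1 : z k * z k ∈ p.asHomogeneousIdeal.toIdeal := by
      rw [x_rel (chart k 0)]
      exact Ideal.add_mem _ (Ideal.mul_mem_right _ _ (hcon _)) (Ideal.mul_mem_right _ _ (hcon _))
    exact (p.isPrime.mem_or_mem h1).elim id id
  have h2 : constantCoeff a.re = 0 := by
    by_contra h3
    have h4 := ha'.1 (d := 0) h3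
    simp at h4
    omega
  have h5 : a = ((⟨a.re, 0⟩ : A k) - cst k (constantCoeff a.re)) + (⟨a.im, 0⟩ : A k) * z k := by
    rw [h2]
    ext : 1
    · simp [cst, z]
    · simp [cst, z]
  change a ∈ p.asHomogeneousIdeal.toIdeal
  rw [h5]
  exact Ideal.add_mem _ (even_mem k _ hcon _) (Ideal.mul_mem_left _ _ hz)

lemma stdSmooth : Algebra.IsStandardSmoothOfRelativeDimension 3 k (MvPolynomial (Fin 3) k) := by
  classical
  let v : Empty → MvPolynomial (Fin 3) k := Empty.elim
  let P := Algebra.PreSubmersivePresentation.naive (v := v) (Empty.elim) (fun a => a.elim)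
  let Q : Algebra.SubmersivePresentation k (MvPolynomial (Fin 3) k ⧸ (Ideal.span <| Set.range v))
      (Fin 3) Empty :=
    { P with
      jacobian_isUnit := by
        rw [Algebra.PreSubmersivePresentation.jacobian_eq_jacobiMatrix_det]
        simp }
  have h1 : Algebra.IsStandardSmoothOfRelativeDimension 3 k
      (MvPolynomial (Fin 3) k ⧸ (Ideal.span <| Set.range v)) := by
    apply Q.isStandardSmoothOfRelativeDimension
    simp [Algebra.Presentation.dimension]
  have h2 : (Ideal.span <| Set.range v) = ⊥ := by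
    simp
  let e : (MvPolynomial (Fin 3) k ⧸ (Ideal.span <| Set.range v)) ≃ₐ[k] MvPolynomial (Fin 3) k :=
    (Ideal.quotientEquivAlgOfEq k h2).trans (AlgEquiv.quotientBot k _)
  exact Algebra.IsStandardSmoothOfRelativeDimension.of_algEquiv 3 e

/-- the standard affine open subsets -/
noncomputable abbrev UU (i : Fin 4) : (XX k).Opens := Proj.basicOpen (gr k) (x k i)

lemma isAffineOpen_UU (i : Fin 4) : IsAffineOpen (UU k i) :=
  Proj.isAffineOpen_basicOpen (gr k) (x k i) (x_mem k i) one_pos

/-- functions on the charts -/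
noncomputable def chartIso (i : Fin 4) : MvPolynomial (Fin 3) k ≃+* Γ(XX k, UU k i) :=
  (chart k i).equiv.symm.trans
    ((Proj.basicOpenIsoAway (gr k) (x k i) (x_mem k i) one_pos).commRingCatIsoToRingEquiv)

variable {k} in
lemma chartIso_apply (i : Fin 4) (y : Away (gr k) (x k i)) :
    chartIso k i ((chart k i).theta y) = Proj.awayToSection (gr k) (x k i) y := by
  have h1 : (chart k i).equiv.symm ((chart k i).theta y) = y :=
    (chart k i).equiv.symm_apply_apply y
  rw [chartIso, RingEquiv.trans_apply, h1]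
  rfl

lemma algebraMap_gr_zero (c : k) : ((algebraMap k (gr k 0) c : gr k 0) : A k) = cst k c := rfl

lemma constSection_chart (i : Fin 4) (c : k) :
    constSection (XXstr k) (UU k i) c = chartIso k i (C c) := by
  have h1 : (C c : MvPolynomial (Fin 3) k) = (chart k i).theta
      (Away.mk (gr k) (x_mem k i) 0 (cst k c) (by simpa using cst_mem k c)) := by
    rw [(chart k i).theta_mk, (chart k i).dehom_cst]
  rw [h1, chartIso_apply]
  apply section_ext
  intro p hp
  rw [valueAt_const, valueAt_awayToSection]
  apply HomogeneousLocalization.val_injective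
  change Localization.mk _ _ = Localization.mk _ _
  congr 1

instance smooth_XX : SmoothOfRelativeDimension 3 (XXstr k) := by
  constructor
  intro p
  obtain ⟨i, hi⟩ := cover_x k p
  refine ⟨⊤, isAffineOpen_top _, UU k i, isAffineOpen_UU k i, hi, le_top, ?_⟩
  have h1 : ((XXstr k).appLE ⊤ (UU k i) le_top).hom =
      ((chartIso k i : MvPolynomial (Fin 3) k →+* Γ(XX k, UU k i)).comp
        (algebraMap k (MvPolynomial (Fin 3) k))).comp
        ((Scheme.ΓSpecIso (CommRingCat.of k)).commRingCatIsoToRingEquiv :
          Γ(Spec (CommRingCat.of k), ⊤) →+* k) := by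
    ext c
    obtain ⟨c, rfl⟩ := (Scheme.ΓSpecIso (CommRingCat.of k)).commRingCatIsoToRingEquiv.symm.surjective c
    have h2 := constSection_chart k i c
    rw [RingHom.comp_apply, RingHom.comp_apply, RingEquiv.coe_toRingHom, RingEquiv.coe_toRingHom,
      RingEquiv.apply_symm_apply]
    exact h2
  rw [h1]
  have h3 := stdSmooth k
  have h4 := (RingHom.isStandardSmoothOfRelativeDimension_algebraMap 3).2 h3
  exact ((RingHom.IsStandardSmoothOfRelativeDimension.equiv (chartIso k i)).comp h4).comp
    (RingHom.IsStandardSmoothOfRelativeDimension.equiv _)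

end X

end Pool.Agent.Helper413.Quad
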