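import Mathlib
import Pool.Agent.Helper413.Quad.Defs
import Pool.Agent.Helper413.Quad.GrDer
import Pool.Agent.Helper413.Quad.Gen
import Pool.Agent.Helper413.Quad.Var

open AlgebraicGeometry CategoryTheory HomogeneousLocalization

universe u

namespace Pool.Agent.Helper413.Quad

section Gv

variable {A : Type u} [CommRing A] [IsDomain A] {σ : Type*} [SetLike σ A] [AddSubgroupClass σ A]
  {𝒜 : ℕ → σ} [GradedRing 𝒜] (h : ∃ n, 0 < n ∧ ∃ f ∈ 𝒜 n, f ≠ 0)

/-- the embedding of the local ring at the generic point in the field of fractions -/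
noncomputable def toK : Loc 𝒜 (genPt 𝒜 h) →+* FractionRing A :=
  (IsLocalization.lift (M := (genPt 𝒜 h).asHomogeneousIdeal.toIdeal.primeCompl)
    (S := Localization (genPt 𝒜 h).asHomogeneousIdeal.toIdeal.primeCompl)
    (g := algebraMap A (FractionRing A)) (by
      intro y
      have h1 : (y : A) ≠ 0 := fun h2 => y.2 (by rw [h2]; exact zero_mem _)
      exact IsUnit.mk0 _ ((map_ne_zero_iff _ (IsFractionRing.injective A (FractionRing A))).2 h1))).comp
    (algebraMap (Loc 𝒜 (genPt 𝒜 h)) _)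

lemma toK_mk (c : NumDenSameDeg 𝒜 (genPt 𝒜 h).asHomogeneousIdeal.toIdeal.primeCompl) :
    toK h (HomogeneousLocalization.mk c) * algebraMap A (FractionRing A) c.den =
      algebraMap A (FractionRing A) c.num := by
  rw [toK, RingHom.comp_apply]
  have h2 : algebraMap (Loc 𝒜 (genPt 𝒜 h)) (Localization
      (genPt 𝒜 h).asHomogeneousIdeal.toIdeal.primeCompl) (HomogeneousLocalization.mk c) =
      Localization.mk (c.num : A) ⟨c.den, c.den_mem⟩ := rfl
  rw [h2, Localization.mk_eq_mk', mul_comm]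
  exact ((IsLocalization.lift_mk'_spec (M := (genPt 𝒜 h).asHomogeneousIdeal.toIdeal.primeCompl)
    (S := Localization (genPt 𝒜 h).asHomogeneousIdeal.toIdeal.primeCompl) _ (c.num : A) _
    ⟨c.den, c.den_mem⟩).1 rfl).symm

lemma toK_injective : Function.Injective (toK h) := by
  rw [injective_iff_map_eq_zero]
  intro y hy
  obtain ⟨c, rfl⟩ := mk_surjective y
  have h1 := toK_mk h c
  rw [hy, zero_mul] at h1
  have h2 : (c.num : A) = 0 := by
    apply IsFractionRing.injective A (FractionRing A)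
    rw [← h1, map_zero]
  exact mk_eq_zero_of_num _ (Subtype.ext h2)

variable {V : (Proj 𝒜).Opens} (hV : (genPt 𝒜 h : Proj 𝒜) ∈ V)

/-- the value of a section at the generic point, in the field of fractions -/
noncomputable def gv : Γ(Proj 𝒜, V) →+* FractionRing A := (toK h).comp (valueAt (genPt 𝒜 h) hV)

lemma gv_res {W : (Proj 𝒜).Opens} (hW : (genPt 𝒜 h : Proj 𝒜) ∈ W) (hWV : W ≤ V)
    (f : Γ(Proj 𝒜, V)) : gv h hW ((Proj 𝒜).presheaf.map (homOfLE hWV).op f) = gv h hV f := rfl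

lemma gv_local (f : Γ(Proj 𝒜, V)) (p : ProjectiveSpectrum 𝒜) (hp : (p : Proj 𝒜) ∈ V) :
    ∃ (c : NumDenSameDeg 𝒜 p.asHomogeneousIdeal.toIdeal.primeCompl),
      valueAt p hp f = HomogeneousLocalization.mk c ∧
      gv h hV f * algebraMap A (FractionRing A) c.den = algebraMap A (FractionRing A) c.num := by
  obtain ⟨W, m, i, j, r, s, nin, hy⟩ := f.2 ⟨p, hp⟩
  refine ⟨⟨j, r, s, nin ⟨p, m⟩⟩, hy ⟨p, m⟩, ?_⟩
  have h1 : genPt 𝒜 h ∈ W := genPt_mem h W p m
  have h2 := hy ⟨genPt 𝒜 h, h1⟩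
  have h3 := toK_mk h ⟨j, r, s, nin ⟨genPt 𝒜 h, h1⟩⟩
  rw [← h3]
  congr 1
  exact congrArg (toK h) h2

lemma gv_injective : Function.Injective (gv h hV) := by
  rw [injective_iff_map_eq_zero]
  intro f hf
  apply section_ext
  intro p hp
  obtain ⟨c, h1, h2⟩ := gv_local h hV f p hp
  rw [hf, zero_mul] at h2
  have h3 : (c.num : A) = 0 := by
    apply IsFractionRing.injective A (FractionRing A)
    rw [← h2, map_zero]
  rw [h1, map_zero]
  exact mk_eq_zero_of_num _ (Subtype.ext h3)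

/-- denominators do not vanish -/
lemma not_mem_of_gv (f : Γ(Proj 𝒜, V)) {π a b : A} (hπ : Prime π)
    (hgv : gv h hV f * algebraMap A (FractionRing A) b = algebraMap A (FractionRing A) a)
    (hb : π ∣ b) (ha : ¬ π ∣ a) (p : ProjectiveSpectrum 𝒜) (hp : (p : Proj 𝒜) ∈ V) :
    π ∉ p.asHomogeneousIdeal.toIdeal := by
  obtain ⟨c, -, h2⟩ := gv_local h hV f p hp
  have h3 : a * (c.den : A) = c.num * b := by
    apply IsFractionRing.injective A (FractionRing A)
    rw [map_mul, map_mul, ← hgv, ← h2]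
    ring
  have h4 : π ∣ a * c.den := h3 ▸ (Dvd.dvd.mul_left hb _)
  have h5 : π ∣ c.den := (hπ.dvd_or_dvd h4).resolve_left ha
  intro h6
  obtain ⟨d, hd⟩ := h5
  apply c.den_mem
  rw [hd]
  exact Ideal.mul_mem_right _ _ h6

/-- sections given by fractions -/
lemma exists_section {m : ℕ} (a b : A) (ha : a ∈ 𝒜 m) (hb : b ∈ 𝒜 m)
    (hbV : ∀ p : ProjectiveSpectrum 𝒜, (p : Proj 𝒜) ∈ V → b ∉ p.asHomogeneousIdeal.toIdeal) :
    ∃ f : Γ(Proj 𝒜, V), gv h hV f * algebraMap A (FractionRing A) b =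
      algebraMap A (FractionRing A) a := by
  refine ⟨⟨fun p => HomogeneousLocalization.mk ⟨m, ⟨a, ha⟩, ⟨b, hb⟩, hbV p.1 p.2⟩, ?_⟩, ?_⟩
  · intro p
    exact ⟨V, p.2, 𝟙 _, m, ⟨a, ha⟩, ⟨b, hb⟩, fun q => hbV q.1 q.2, fun q => rfl⟩
  · exact toK_mk h ⟨m, ⟨a, ha⟩, ⟨b, hb⟩, hbV _ hV⟩

end Gv

end Pool.Agent.Helper413.Quad
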