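import Mathlib

open MvPolynomial

universe u

namespace Pool.Agent.Helper413.Quad

section Hom

variable {k : Type u} [Field k] {σ : Type*}

/-- the scaling homomorphism -/
noncomputable def scal : MvPolynomial σ k →ₐ[k] Polynomial (MvPolynomial σ k) :=
  aeval (fun i => Polynomial.C (X i) * Polynomial.X)

lemma scal_hom {n : ℕ} {f : MvPolynomial σ k} (hf : f.IsHomogeneous n) :
    scal f = Polynomial.C f * Polynomial.X ^ n := by
  conv_lhs => rw [f.as_sum]
  conv_rhs => rw [f.as_sum]
  rw [map_sum, map_sum, Finset.sum_mul]
  apply Finset.sum_congr rfl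
  intro d hd
  have h1 := hf.degree_eq_sum_deg_support hd
  rw [scal, aeval_monomial, monomial_eq, Finsupp.prod, Finsupp.prod, map_mul, map_prod]
  simp_rw [mul_pow]
  rw [Finset.prod_mul_distrib, Finset.prod_pow_eq_pow_sum, h1]
  simp only [map_pow]
  rw [mul_assoc]
  congr 1

lemma coeff_scal (f : MvPolynomial σ k) (n : ℕ) : (scal f).coeff n = homogeneousComponent n f := by
  conv_lhs => rw [← sum_homogeneousComponent f]
  rw [map_sum, Polynomial.finsetSum_coeff]
  have h1 : ∀ i, (scal (homogeneousComponent i f)).coeff n =
      if n = i then homogeneousComponent i f else 0 := by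
    intro i
    rw [scal_hom (homogeneousComponent_isHomogeneous i f), Polynomial.coeff_C_mul_X_pow]
  simp_rw [h1]
  rw [Finset.sum_ite_eq]
  split_ifs with h
  · rfl
  · rw [homogeneousComponent_eq_zero]
    rw [Finset.mem_range] at h
    omega

lemma scal_ne_zero {f : MvPolynomial σ k} (hf : f ≠ 0) : scal f ≠ 0 := by
  intro h
  apply hf
  rw [← sum_homogeneousComponent f]
  apply Finset.sum_eq_zero
  intro i _
  rw [← coeff_scal, h, Polynomial.coeff_zero]

lemma isHomogeneous_of_scal {f : MvPolynomial σ k}
    (h : (scal f).natDegree = (scal f).natTrailingDegree) :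
    f.IsHomogeneous (scal f).natDegree := by
  have h1 : ∀ n, n ≠ (scal f).natDegree → homogeneousComponent n f = 0 := by
    intro n hn
    rw [← coeff_scal]
    rcases lt_or_gt_of_ne hn with h2 | h2
    · rw [h] at h2
      exact Polynomial.coeff_eq_zero_of_lt_natTrailingDegree h2
    · exact Polynomial.coeff_eq_zero_of_natDegree_lt h2
  have h2 : f = homogeneousComponent (scal f).natDegree f := by
    conv_lhs => rw [← sum_homogeneousComponent f]
    by_cases h3 : (scal f).natDegree ∈ Finset.range (f.totalDegree + 1)
    · rw [Finset.sum_eq_single_of_mem _ h3]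
      intro n _ hn
      exact h1 n hn
    · rw [Finset.sum_eq_zero, homogeneousComponent_eq_zero]
      · rw [Finset.mem_range] at h3
        omega
      · intro n hn
        apply h1
        rintro rfl
        exact h3 hn
  conv_lhs => rw [h2]
  exact homogeneousComponent_isHomogeneous _ f

/-- factors of homogeneous polynomials are homogeneous -/
lemma isHomogeneous_of_mul {n : ℕ} {f g : MvPolynomial σ k} (h0 : f * g ≠ 0)
    (h : (f * g).IsHomogeneous n) :
    ∃ a b, f.IsHomogeneous a ∧ g.IsHomogeneous b ∧ a + b = n := by
  have hf : f ≠ 0 := left_ne_zero_of_mul h0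
  have hg : g ≠ 0 := right_ne_zero_of_mul h0
  have h1 := scal_hom h
  rw [map_mul] at h1
  have h2 : (scal f * scal g).natDegree = n := by
    rw [h1, Polynomial.natDegree_C_mul_X_pow _ _ h0]
  have h3 : (scal f * scal g).natTrailingDegree = n := by
    rw [h1, Polynomial.C_mul_X_pow_eq_monomial, Polynomial.natTrailingDegree_monomial h0]
  rw [Polynomial.natDegree_mul (scal_ne_zero hf) (scal_ne_zero hg)] at h2
  rw [Polynomial.natTrailingDegree_mul (scal_ne_zero hf) (scal_ne_zero hg)] at h3
  have h4 := Polynomial.natTrailingDegree_le_natDegree (scal f)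
  have h5 := Polynomial.natTrailingDegree_le_natDegree (scal g)
  exact ⟨_, _, isHomogeneous_of_scal (by omega), isHomogeneous_of_scal (by omega), h2⟩

end Hom

end Pool.Agent.Helper413.Quad
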