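import Mathlib
import Pool.Agent.Helper413.Quad.Hom

open MvPolynomial

universe u

namespace Pool.Agent.Helper413.Quad

section Mn

variable {k : Type u} [Field k] {N : ℕ}

/-- common representation by coprime forms of the same degree -/
lemma exists_min (t : Fin 4 → FractionRing (MvPolynomial (Fin N) k)) (ht0 : t 0 = 1)
    (ht : ∀ j, t j ≠ 0)
    (hrep : ∀ j, ∃ (d : ℕ) (a b : MvPolynomial (Fin N) k), a.IsHomogeneous d ∧
      b.IsHomogeneous d ∧ b ≠ 0 ∧ t j * algebraMap _ _ b = algebraMap _ _ a) :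
    ∃ (d : ℕ) (F : Fin 4 → MvPolynomial (Fin N) k), (∀ j, (F j).IsHomogeneous d) ∧
      (∀ j, F j ≠ 0) ∧ (∀ j, t j * algebraMap _ _ (F 0) = algebraMap _ _ (F j)) ∧
      ∀ π, Prime π → ∃ j, ¬ π ∣ F j := by
  classical
  have hinj := IsFractionRing.injective (MvPolynomial (Fin N) k)
    (FractionRing (MvPolynomial (Fin N) k))
  have hex : ∃ (d : ℕ), ∃ (F : Fin 4 → MvPolynomial (Fin N) k), (∀ j, (F j).IsHomogeneous d) ∧
      (∀ j, F j ≠ 0) ∧ (∀ j, t j * algebraMap _ _ (F 0) =
        algebraMap _ (FractionRing (MvPolynomial (Fin N) k)) (F j)) := by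
    choose d a b ha hb hb0 hab using hrep
    refine ⟨∑ j, d j, fun j => a j * ∏ l ∈ Finset.univ.erase j, b l, ?_, ?_, ?_⟩
    · intro j
      rw [← Finset.add_sum_erase _ _ (Finset.mem_univ j)]
      exact (ha j).mul (IsHomogeneous.prod _ _ _ fun l _ => hb l)
    · intro j
      refine mul_ne_zero ?_ (Finset.prod_ne_zero_iff.2 fun l _ => hb0 l)
      rintro h0
      have h1 := hab j
      rw [h0, map_zero] at h1
      rcases mul_eq_zero.1 h1 with h2 | h2
      · exact ht j h2
      · exact hb0 j (hinj (by rw [h2, map_zero]))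
    · intro j
      have h1 : algebraMap (MvPolynomial (Fin N) k) (FractionRing (MvPolynomial (Fin N) k))
          (a 0 * ∏ l ∈ Finset.univ.erase 0, b l) = algebraMap _ _ (∏ l, b l) := by
        rw [map_mul, ← hab 0, ht0, one_mul, ← map_mul, Finset.mul_prod_erase _ _ (Finset.mem_univ _)]
      rw [h1, ← Finset.mul_prod_erase _ _ (Finset.mem_univ j), map_mul, ← mul_assoc, hab, ← map_mul]
  obtain ⟨F, h1, h2, h3⟩ := Nat.find_spec hex
  refine ⟨Nat.find hex, F, h1, h2, h3, ?_⟩
  intro π hπ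
  by_contra hcon
  push Not at hcon
  choose G hG using hcon
  have h4 : ∀ j, ∃ a b, π.IsHomogeneous a ∧ (G j).IsHomogeneous b ∧ a + b = Nat.find hex := by
    intro j
    apply isHomogeneous_of_mul (hG j ▸ h2 j) (hG j ▸ h1 j)
  obtain ⟨a, b, ha, hb, hab⟩ := h4 0
  have h5 : ∀ j, (G j).IsHomogeneous b := by
    intro j
    obtain ⟨a', b', ha', hb', hab'⟩ := h4 j
    have h6 : a' = a := ha'.inj_right ha hπ.ne_zero
    have h7 : b' = b := by omega
    exact h7 ▸ hb'
  have h6 : 0 < a := by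
    rcases Nat.eq_zero_or_pos a with h7 | h7
    · exfalso
      subst h7
      have h8 := totalDegree_eq_zero_iff_eq_C.1 ((totalDegree_zero_iff_isHomogeneous _).2 ha)
      apply hπ.not_isUnit
      rw [h8]
      apply IsUnit.map
      apply IsUnit.mk0
      intro h9
      rw [h9, C_0] at h8
      exact hπ.ne_zero h8
    · exact h7
  have h7 : b < Nat.find hex := by omega
  apply Nat.find_min hex h7
  refine ⟨G, h5, fun j h8 => h2 j (by rw [hG j, h8, mul_zero]), fun j => ?_⟩
  have h8 := h3 j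
  rw [hG j, hG 0, map_mul, map_mul] at h8
  have h9 : algebraMap (MvPolynomial (Fin N) k) (FractionRing (MvPolynomial (Fin N) k)) π ≠ 0 :=
    (map_ne_zero_iff _ hinj).2 hπ.ne_zero
  apply mul_left_cancel₀ h9
  rw [← h8]
  ring

/-- a prime ideal containing an element contains one of its prime factors -/
lemma exists_prime_factor {B : Type*} [CommRing B] [IsDomain B] [UniqueFactorizationMonoid B]
    (P : Ideal B) [P.IsPrime] (f : B) (hf : f ∈ P) (h0 : f ≠ 0) : ∃ π, Prime π ∧ π ∣ f ∧ π ∈ P := by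
  obtain ⟨s, hs, hs'⟩ := UniqueFactorizationMonoid.exists_prime_factors f h0
  have h1 : s.prod ∈ P := by
    obtain ⟨u, hu⟩ := hs'
    rw [← hu] at hf
    exact (Ideal.mul_unit_mem_iff_mem P u.isUnit).1 hf
  obtain ⟨π, h2, h3⟩ := (Ideal.IsPrime.multiset_prod_mem_iff_exists_mem inferInstance s).1 h1
  exact ⟨π, hs π h2, (Multiset.dvd_prod h2).trans hs'.dvd, h3⟩

end Mn

end Pool.Agent.Helper413.Quad
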