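import Mathlib
import Pool.Agent.Helper413.Quad.Ring

open MvPolynomial

universe u

namespace Pool.Agent.Helper413.Quad

section NR

variable {k : Type u} [Field k]

lemma hom_zero {σ : Type*} {f : MvPolynomial σ k} (hf : f.IsHomogeneous 0) : f = C (coeff 0 f) :=
  totalDegree_eq_zero_iff_eq_C.1 ((totalDegree_zero_iff_isHomogeneous _).2 hf)

lemma pderiv_hom_one {σ : Type*} {f : MvPolynomial σ k} (hf : f.IsHomogeneous 1) (j : σ) :
    pderiv j f = C (coeff 0 (pderiv j f)) :=
  hom_zero (by simpa using hf.pderiv (i := j))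

lemma euler_one {N : ℕ} {f : MvPolynomial (Fin N) k} (hf : f.IsHomogeneous 1) :
    f = ∑ j, X j * pderiv j f := by
  have h1 := hf.sum_X_mul_pderiv
  rw [one_smul] at h1
  exact h1.symm

variable [CharP k 2]

lemma pderiv_sq {σ : Type*} (j : σ) (f : MvPolynomial σ k) : pderiv j (f * f) = 0 := by
  have h1 : (C (2 : k) : MvPolynomial σ k) = 2 := map_ofNat C 2
  have h2 : (2 : MvPolynomial σ k) = 0 := by rw [← h1, CharTwo.two_eq_zero, C_0]
  rw [Derivation.leibniz, smul_eq_mul, ← two_mul, h2, zero_mul]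

lemma noRel (α β γ : A k) (hα : α ∈ gr k 1) (hβ : β ∈ gr k 1) (hγ : γ ∈ gr k 1)
    (h : α * γ = β * β) (hind : ∀ s t : k, s • α + t • γ = 0 → s = 0 ∧ t = 0) : False := by
  have h2 : (2 : R k) = 0 := two_eq k
  obtain ⟨a4, ha4⟩ : ∃ c, α.im = C c := ⟨_, hom_zero hα.2⟩
  obtain ⟨b4, hb4⟩ : ∃ c, β.im = C c := ⟨_, hom_zero hβ.2⟩
  obtain ⟨c4, hc4⟩ : ∃ c, γ.im = C c := ⟨_, hom_zero hγ.2⟩
  have hre := congrArg QuadraticAlgebra.re h
  have him := congrArg QuadraticAlgebra.im h
  rw [QuadraticAlgebra.re_mul, QuadraticAlgebra.re_mul, hb4, ha4, hc4] at hre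
  rw [QuadraticAlgebra.im_mul, QuadraticAlgebra.im_mul, hb4, ha4, hc4] at him
  have h3 : c4 • α + a4 • γ = 0 := by
    ext : 1
    · rw [QuadraticAlgebra.re_add, QuadraticAlgebra.re_smul, QuadraticAlgebra.re_smul,
        MvPolynomial.smul_eq_C_mul, MvPolynomial.smul_eq_C_mul, QuadraticAlgebra.re_zero]
      linear_combination him + β.re * C b4 * h2
    · rw [QuadraticAlgebra.im_add, QuadraticAlgebra.im_smul, QuadraticAlgebra.im_smul,
        MvPolynomial.smul_eq_C_mul, MvPolynomial.smul_eq_C_mul, QuadraticAlgebra.im_zero,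
        ha4, hc4]
      linear_combination C a4 * C c4 * h2
  obtain ⟨rfl, rfl⟩ := hind _ _ h3
  rw [C_0, mul_zero, add_zero] at hre
  have h4 : ∀ j, α.re * pderiv j γ.re + γ.re * pderiv j α.re = C (b4 * b4) * pderiv j (q0 k) := by
    intro j
    have h5 := congrArg (pderiv j) hre
    rw [map_add, pderiv_sq, zero_add, Derivation.leibniz, smul_eq_mul, smul_eq_mul,
      mul_assoc, ← C_mul, Derivation.leibniz, pderiv_C, smul_zero, zero_add, smul_eq_mul] at h5
    exact h5
  have hα1 := hα.1
  have hγ1 := hγ.1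
  rw [mem_homogeneousSubmodule] at hα1 hγ1
  have h5 : ∀ j, ∃ a c : k, pderiv j α.re = C a ∧ pderiv j γ.re = C c := fun j =>
    ⟨_, _, pderiv_hom_one hα1 j, pderiv_hom_one hγ1 j⟩
  choose a c ha hc using h5
  have h6 : ∀ j, α.re * C (c j) + γ.re * C (a j) = C (b4 * b4) * pderiv j (q0 k) := by
    intro j
    rw [← ha, ← hc]
    exact h4 j
  by_cases hb : b4 = 0
  · subst hb
    have h7 : ∀ j, a j = 0 := by
      intro j
      have h8 := h6 j
      rw [mul_zero, C_0, zero_mul] at h8
      refine (hind (c j) (a j) ?_).2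
      ext : 1
      · rw [QuadraticAlgebra.re_add, QuadraticAlgebra.re_smul, QuadraticAlgebra.re_smul,
          MvPolynomial.smul_eq_C_mul, MvPolynomial.smul_eq_C_mul, QuadraticAlgebra.re_zero]
        linear_combination h8
      · rw [QuadraticAlgebra.im_add, QuadraticAlgebra.im_smul, QuadraticAlgebra.im_smul,
          ha4, hc4]
        simp
    have h9 : α.re = 0 := by
      rw [euler_one hα1]
      apply Finset.sum_eq_zero
      intro j _
      rw [ha, h7, C_0, mul_zero]
    have h10 : α = 0 := by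
      ext : 1
      · exact h9
      · rw [ha4]; simp
    have h11 := hind 1 0 (by rw [h10]; simp)
    exact one_ne_zero h11.1
  · let L : (Fin 4 → k) →ₗ[k] (Fin 2 → k) := Matrix.toLin' !![a 0, a 1, a 2, a 3; c 0, c 1, c 2, c 3]
    have h7 : LinearMap.ker L ≠ ⊥ := by
      apply LinearMap.ker_ne_bot_of_finrank_lt
      simp
    obtain ⟨v, hv, hv0⟩ := (Submodule.ne_bot_iff _).1 h7
    apply hv0
    rw [LinearMap.mem_ker] at hv
    have hva := congrFun hv 0
    have hvc := congrFun hv 1
    simp [L, Matrix.toLin'_apply, Matrix.mulVec, dotProduct, Fin.sum_univ_four] at hva hvc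
    have h8 : eval v α.re = 0 := by
      rw [euler_one hα1, Fin.sum_univ_four, ha, ha, ha, ha]
      simp
      linear_combination hva
    have h9 : eval v γ.re = 0 := by
      rw [euler_one hγ1, Fin.sum_univ_four, hc, hc, hc, hc]
      simp
      linear_combination hvc
    have h10 : ∀ j, eval v (pderiv j (q0 k)) = 0 := by
      intro j
      have h11 := congrArg (eval v) (h6 j)
      rw [map_add, map_mul, map_mul, map_mul, h8, h9, zero_mul, zero_mul, add_zero, eval_C] at h11
      exact (mul_eq_zero.1 h11.symm).resolve_left (mul_ne_zero hb hb)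
    have e0 := h10 0
    have e1 := h10 1
    have e2 := h10 2
    have e3 := h10 3
    simp [q0, pderiv_X] at e0 e1 e2 e3
    funext j
    fin_cases j
    · exact e1
    · exact e0
    · exact e3
    · exact e2

end NR

end Pool.Agent.Helper413.Quad
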