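import Mathlib
import Pool.Agent.Helper413.Quad.Defs
import Pool.Agent.Helper413.Quad.GrDer
import Pool.Agent.Helper413.Quad.Ring
import Pool.Agent.Helper413.Quad.Gen
import Pool.Agent.Helper413.Quad.Var

open MvPolynomial AlgebraicGeometry CategoryTheory HomogeneousLocalization HomogeneousIdeal

universe u

namespace Pool.Agent.Helper413.Quad

section unit

variable {A : Type u} [CommRing A] {σ : Type*} [SetLike σ A] [AddSubgroupClass σ A]
  {𝒜 : ℕ → σ} [GradedRing 𝒜]

/-- membership in the non-vanishing locus, via values -/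
lemma mem_basicOpen_iff {U : (Proj 𝒜).Opens} (f : Γ(Proj 𝒜, U)) (p : ProjectiveSpectrum 𝒜)
    (hp : (p : Proj 𝒜) ∈ U) :
    (p : Proj 𝒜) ∈ (Proj 𝒜).basicOpen f ↔ IsUnit (valueAt p hp f) := by
  refine (Scheme.mem_basicOpen (X := Proj 𝒜) f p hp).trans ?_
  have h1 : (Proj.stalkIso 𝒜 p).hom.hom ((Proj 𝒜).presheaf.germ U p hp f) = valueAt p hp f :=
    Proj.stalkIso'_germ 𝒜 U p hp f
  rw [← h1]
  exact (MulEquiv.isUnit_map (Proj.stalkIso 𝒜 p).commRingCatIsoToRingEquiv).symm

lemma isUnit_mk_iff (p : ProjectiveSpectrum 𝒜)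
    (c : NumDenSameDeg 𝒜 p.asHomogeneousIdeal.toIdeal.primeCompl) :
    IsUnit (HomogeneousLocalization.mk c : Loc 𝒜 p) ↔
      (c.num : A) ∉ p.asHomogeneousIdeal.toIdeal := by
  rw [← HomogeneousLocalization.isUnit_iff_isUnit_val, HomogeneousLocalization.val_mk,
    Localization.mk_eq_mk', IsLocalization.AtPrime.isUnit_mk'_iff _ p.asHomogeneousIdeal.toIdeal]
  rfl

end unit

section X

variable (k : Type u) [Field k]

lemma exists_x : ∃ n, 0 < n ∧ ∃ f ∈ gr k n, f ≠ 0 := ⟨1, one_pos, x k 0, x_mem k 0, x_ne_zero k 0⟩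

instance isIntegral_XX [CharP k 2] : IsIntegral (XX k) := isIntegral_Proj (exists_x k)

instance compact_XX : CompactSpace (XX k) := by
  constructor
  have h1 : (Set.univ : Set (XX k)) = ⋃ i : Fin 4, (UU k i : Set (XX k)) := by
    rw [eq_comm, Set.eq_univ_iff_forall]
    intro p
    obtain ⟨i, hi⟩ := cover_x k p
    exact Set.mem_iUnion.2 ⟨i, hi⟩
  rw [h1]
  exact isCompact_iUnion fun i => (isAffineOpen_UU k i).isCompact

/-- the function `a / x i` on `D(x i)`, for `a` of degree one -/
noncomputable def fr (i : Fin 4) (a : A k) (ha : a ∈ gr k 1) : Γ(XX k, UU k i) :=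
  Proj.awayToSection (gr k) (x k i) (Away.mk (gr k) (x_mem k i) 1 a (by simpa using ha))

lemma valueAt_fr (i : Fin 4) (a : A k) (ha : a ∈ gr k 1) (p : ProjectiveSpectrum (gr k))
    (hp : (p : XX k) ∈ UU k i) : valueAt p hp (fr k i a ha) =
      HomogeneousLocalization.mk ⟨1, ⟨a, ha⟩, ⟨x k i, x_mem k i⟩, hp⟩ := by
  rw [fr, valueAt_awayToSection]
  apply HomogeneousLocalization.val_injective
  change Localization.mk _ _ = Localization.mk _ _
  congr 1
  apply Subtype.ext
  exact pow_one _

lemma res_mul_res_fr (i j : Fin 4) (a : A k) (ha : a ∈ gr k 1) (V : (XX k).Opens)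
    (hi : V ≤ UU k i) (hj : V ≤ UU k j) :
    (XX k).presheaf.map (homOfLE hi).op (fr k i a ha) =
      (XX k).presheaf.map (homOfLE hi).op (fr k i (x k j) (x_mem k j)) *
        (XX k).presheaf.map (homOfLE hj).op (fr k j a ha) := by
  apply section_ext
  intro p hp
  rw [map_mul, valueAt_res, valueAt_res, valueAt_res, valueAt_fr, valueAt_fr, valueAt_fr]
  apply HomogeneousLocalization.val_injective
  rw [val_mul]
  change Localization.mk _ _ = Localization.mk _ _ * Localization.mk _ _
  rw [Localization.mk_mul, Localization.mk_eq_mk_iff, Localization.r_iff_exists]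
  refine ⟨1, ?_⟩
  simp only [OneMemClass.coe_one, Submonoid.coe_mul]
  ring

lemma fr_self (i : Fin 4) : fr k i (x k i) (x_mem k i) = 1 := by
  apply section_ext
  intro p hp
  rw [valueAt_fr, map_one]
  apply HomogeneousLocalization.val_injective
  rw [val_one]
  exact Localization.mk_self ⟨x k i, hp⟩

/-- the line bundle `O(1)` -/
noncomputable def O1 : LineBundle (XX k) where
  ι := ULift (Fin 4)
  U i := UU k i.down
  cover p := by
    obtain ⟨i, hi⟩ := cover_x k p
    exact ⟨⟨i⟩, hi⟩
  g i j := (XX k).presheaf.map (homOfLE inf_le_left).op (fr k i.down (x k j.down) (x_mem k _))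
  g_self i := by
    rw [fr_self, map_one]
  g_mul i j l V hi hj hl := by
    have h1 := res_mul_res_fr k i.down j.down (x k l.down) (x_mem k _) V hi hj
    exact h1.symm

/-- the sections of `O(1)` given by the elements of degree one -/
noncomputable def O1sec (a : A k) (ha : a ∈ gr k 1) : (O1 k).PowSection 1 where
  f i := fr k i.down a ha
  agree i j := by
    rw [pow_one]
    exact res_mul_res_fr k i.down j.down a ha _ inf_le_left inf_le_right

lemma nonvanishing_O1sec (l : Fin 4) : (O1sec k (x k l) (x_mem k l)).nonvanishing = UU k l := by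
  apply TopologicalSpace.Opens.ext
  ext p
  change p ∈ (O1sec k (x k l) (x_mem k l)).nonvanishing ↔ _
  rw [LineBundle.PowSection.nonvanishing, TopologicalSpace.Opens.mem_iSup]
  constructor
  · rintro ⟨i, hi⟩
    have hp : p ∈ UU k i.down := (XX k).basicOpen_le _ hi
    have h1 := (mem_basicOpen_iff _ _ hp).1 hi
    change IsUnit (valueAt p hp (fr k i.down (x k l) (x_mem k l))) at h1
    rw [valueAt_fr, isUnit_mk_iff] at h1
    exact h1
  · intro hp
    refine ⟨⟨l⟩, (mem_basicOpen_iff _ _ hp).2 ?_⟩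
    change IsUnit (valueAt p hp (fr k l (x k l) (x_mem k l)))
    rw [fr_self, map_one]
    exact isUnit_one

lemma ample_O1 : (O1 k).IsAmple := by
  refine ⟨inferInstance, fun p => ?_⟩
  obtain ⟨i, hi⟩ := cover_x k p
  refine ⟨1, O1sec k (x k i) (x_mem k i), one_pos, ?_, ?_⟩
  · rw [nonvanishing_O1sec]
    exact hi
  · rw [nonvanishing_O1sec]
    exact isAffineOpen_UU k i

end X

end Pool.Agent.Helper413.Quad
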