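import Mathlib
import Pool.Agent.Helper413.Quad.Defs
import Pool.Agent.Helper413.Quad.GrDer
import Pool.Agent.Helper413.Quad.Ring
import Pool.Agent.Helper413.Quad.Gen
import Pool.Agent.Helper413.Quad.Var
import Pool.Agent.Helper413.Quad.O1
import Pool.Agent.Helper413.Quad.Gv

open MvPolynomial AlgebraicGeometry CategoryTheory HomogeneousLocalization

universe u

namespace Pool.Agent.Helper413.Quad

attribute [local instance] MvPolynomial.gradedAlgebra

section gen

lemma app_res {X Y : Scheme.{u}} (g : Y ⟶ X) {V W : X.Opens} (h : W ≤ V) (f : Γ(X, V)) :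
    (g.app W).hom (X.presheaf.map (homOfLE h).op f) =
      Y.presheaf.map (homOfLE (show g ⁻¹ᵁ W ≤ g ⁻¹ᵁ V from fun _ hx => h hx)).op
        ((g.app V).hom f) :=
  congrArg (fun q => q.hom f) (g.naturality (homOfLE h).op)

end gen

section Pb

variable {k : Type u} [Field k] {n : ℕ}

/-- the coordinate ring of projective space -/
abbrev S (k : Type u) [Field k] (n : ℕ) := MvPolynomial (Fin (n + 1)) k

/-- its field of fractions -/
abbrev KK (k : Type u) [Field k] (n : ℕ) := FractionRing (S k n)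

lemma exists_y (k : Type u) [Field k] (n : ℕ) :
    ∃ m, 0 < m ∧ ∃ f ∈ homogeneousSubmodule (Fin (n + 1)) k m, f ≠ 0 :=
  ⟨1, one_pos, X 0, isHomogeneous_X k 0, X_ne_zero 0⟩

/-- projective space -/
noncomputable abbrev YY (k : Type u) [Field k] (n : ℕ) : Scheme.{u} :=
  Proj (homogeneousSubmodule (Fin (n + 1)) k)

/-- its structure morphism -/
noncomputable abbrev YYstr (k : Type u) [Field k] (n : ℕ) : YY k n ⟶ Spec (CommRingCat.of k) :=
  projStr (homogeneousSubmodule (Fin (n + 1)) k)

variable [CharP k 2] (g : YY k n ⟶ XX k) [IsIso g]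

lemma gen_mem (V : (XX k).Opens) (hV : (genPt (gr k) (exists_x k) : XX k) ∈ V) :
    (genPt (homogeneousSubmodule (Fin (n + 1)) k) (exists_y k n) : YY k n) ∈ g ⁻¹ᵁ V := by
  apply genPt_mem (exists_y k n) (g ⁻¹ᵁ V) ((inv g) (genPt (gr k) (exists_x k)))
  change g ((inv g) (genPt (gr k) (exists_x k))) ∈ V
  rw [← Scheme.Hom.comp_apply, IsIso.inv_hom_id]
  exact hV

/-- pullback of rational functions -/
noncomputable def psi (V : (XX k).Opens) (hV : (genPt (gr k) (exists_x k) : XX k) ∈ V) :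
    Γ(XX k, V) →+* KK k n :=
  (gv (exists_y k n) (gen_mem g V hV)).comp (g.app V).hom

variable (V : (XX k).Opens) (hV : (genPt (gr k) (exists_x k) : XX k) ∈ V)

lemma psi_injective : Function.Injective (psi g V hV) := by
  apply (gv_injective (exists_y k n) (gen_mem g V hV)).comp
  exact (ConcreteCategory.bijective_of_isIso (g.app V)).1

lemma psi_res (W : (XX k).Opens) (hW : (genPt (gr k) (exists_x k) : XX k) ∈ W) (h : W ≤ V)
    (f : Γ(XX k, V)) : psi g W hW ((XX k).presheaf.map (homOfLE h).op f) = psi g V hV f := by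
  have h1 := app_res g h f
  refine (congrArg (gv (exists_y k n) (gen_mem g W hW)) h1).trans ?_
  exact gv_res (exists_y k n) (gen_mem g V hV) (gen_mem g W hW) _ _

lemma psi_const (hg : g ≫ XXstr k = YYstr k n) (c : k) :
    psi g V hV (constSection (XXstr k) V c) = algebraMap (S k n) (KK k n) (C c) := by
  have h1 : (g.app V).hom (constSection (XXstr k) V c) =
      constSection (YYstr k n) (g ⁻¹ᵁ V) c := by
    rw [constSection, constSection]
    have h2 : (YYstr k n).appLE ⊤ (g ⁻¹ᵁ V) le_top = (XXstr k).appLE ⊤ V le_top ≫ g.app V := by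
      rw [g.app_eq_appLE, Scheme.Hom.appLE_comp_appLE]
      simp only [hg]
    rw [h2]
    rfl
  refine (congrArg (gv (exists_y k n) (gen_mem g V hV)) h1).trans ?_
  have h2 := valueAt_const (homogeneousSubmodule (Fin (n + 1)) k) (g ⁻¹ᵁ V) _ (gen_mem g V hV) c
  refine (congrArg (toK (exists_y k n)) h2).trans ?_
  have h3 := toK_mk (exists_y k n) ⟨0, ⟨C c, isHomogeneous_C _ _⟩, ⟨1, isHomogeneous_one _ _⟩,
    Submonoid.one_mem _⟩
  rw [map_one, mul_one] at h3
  exact h3

lemma psi_surj (f' : Γ(YY k n, g ⁻¹ᵁ V)) : ∃ f : Γ(XX k, V),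
    psi g V hV f = gv (exists_y k n) (gen_mem g V hV) f' := by
  obtain ⟨f, rfl⟩ := (ConcreteCategory.bijective_of_isIso (g.app V)).2 f'
  exact ⟨f, rfl⟩

end Pb

end Pool.Agent.Helper413.Quad
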