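import Mathlib
import Pool.Agent.Helper413.Quad.Defs
import Pool.Agent.Helper413.Quad.GrDer
import Pool.Agent.Helper413.Quad.Ring
import Pool.Agent.Helper413.Quad.Gen
import Pool.Agent.Helper413.Quad.Var
import Pool.Agent.Helper413.Quad.O1
import Pool.Agent.Helper413.Quad.Gv
import Pool.Agent.Helper413.Quad.Pb

open MvPolynomial AlgebraicGeometry CategoryTheory HomogeneousLocalization

universe u

namespace Pool.Agent.Helper413.Quad

attribute [local instance] MvPolynomial.gradedAlgebra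

section GvX

variable (k : Type u) [Field k] [CharP k 2]

/-- the generic point of the quadric -/
noncomputable abbrev xi : XX k := genPt (gr k) (exists_x k)

lemma xi_mem (i : Fin 4) : xi k ∈ UU k i := x_ne_zero k i

/-- the field of fractions of the coordinate ring of the quadric -/
abbrev KA := FractionRing (A k)

variable {k}

/-- rational functions on the quadric -/
noncomputable abbrev gvX {V : (XX k).Opens} (hV : xi k ∈ V) : Γ(XX k, V) →+* KA k :=
  gv (exists_x k) hV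

omit [CharP k 2] in
lemma algebraMap_ne {a : A k} (ha : a ≠ 0) : algebraMap (A k) (KA k) a ≠ 0 :=
  (map_ne_zero_iff _ (IsFractionRing.injective (A k) (KA k))).2 ha

lemma gvX_fr (i : Fin 4) (a : A k) (ha : a ∈ gr k 1) :
    gvX (xi_mem k i) (fr k i a ha) * algebraMap (A k) (KA k) (x k i) =
      algebraMap (A k) (KA k) a := by
  have h1 := toK_mk (exists_x k) ⟨1, ⟨a, ha⟩, ⟨x k i, x_mem k i⟩, xi_mem k i⟩
  refine Eq.trans ?_ h1
  exact congrArg (fun v => toK (exists_x k) v * algebraMap (A k) (KA k) (x k i))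
    (valueAt_fr k i a ha _ (xi_mem k i))

lemma gvX_const {V : (XX k).Opens} (hV : xi k ∈ V) (c : k) :
    gvX hV (constSection (XXstr k) V c) = algebraMap (A k) (KA k) (algebraMap k (A k) c) := by
  refine (congrArg (toK (exists_x k)) (valueAt_const (gr k) V _ hV c)).trans ?_
  have h3 := toK_mk (exists_x k) ⟨0, algebraMap k (gr k 0) c, 1, Submonoid.one_mem _⟩
  rw [show (((1 : gr k 0) : A k)) = 1 from rfl, map_one, mul_one] at h3
  exact h3

omit [CharP k 2] in
lemma awayToSection_surjective (i : Fin 4) (f : Γ(XX k, UU k i)) :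
    ∃ y : Away (gr k) (x k i), Proj.awayToSection (gr k) (x k i) y = f := by
  obtain ⟨y, rfl⟩ := ((Proj.basicOpenIsoAway (gr k) (x k i) (x_mem k i)
    one_pos).commRingCatIsoToRingEquiv).surjective f
  exact ⟨y, rfl⟩

lemma gvX_awayToSection (i : Fin 4) (m : ℕ) (α : A k) (hα : α ∈ gr k (m • 1)) :
    gvX (xi_mem k i) (Proj.awayToSection (gr k) (x k i) (Away.mk (gr k) (x_mem k i) m α hα)) *
      algebraMap (A k) (KA k) (x k i ^ m) = algebraMap (A k) (KA k) α := by
  have h1 := toK_mk (exists_x k) ⟨m • 1, ⟨α, hα⟩, ⟨x k i ^ m, SetLike.pow_mem_graded m (x_mem k i)⟩,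
    Submonoid.pow_mem (genPt (gr k) (exists_x k)).asHomogeneousIdeal.toIdeal.primeCompl (xi_mem k i) m⟩
  have h2 := valueAt_awayToSection (𝒜 := gr k) (genPt (gr k) (exists_x k)) (xi_mem k i)
    (Away.mk (gr k) (x_mem k i) m α hα)
  have h3 : HomogeneousLocalization.mapId (gr k) (Submonoid.powers_le.mpr (xi_mem k i))
      (Away.mk (gr k) (x_mem k i) m α hα) = HomogeneousLocalization.mk ⟨m • 1, ⟨α, hα⟩,
        ⟨x k i ^ m, SetLike.pow_mem_graded m (x_mem k i)⟩,
        Submonoid.pow_mem (genPt (gr k) (exists_x k)).asHomogeneousIdeal.toIdeal.primeCompl (xi_mem k i) m⟩ := rfl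
  rw [h3] at h2
  refine Eq.trans (congrArg (fun v => toK (exists_x k) v *
    algebraMap (A k) (KA k) (x k i ^ m)) h2) h1

lemma gvX_away (i : Fin 4) (f : Γ(XX k, UU k i)) : ∃ (m : ℕ) (α : A k), α ∈ gr k m ∧
    gvX (xi_mem k i) f * algebraMap (A k) (KA k) (x k i) ^ m = algebraMap (A k) (KA k) α := by
  obtain ⟨y, rfl⟩ := awayToSection_surjective i f
  obtain ⟨m, α, hα, rfl⟩ := Away.mk_surjective (gr k) (x_mem k i) y
  refine ⟨m, α, by simpa using hα, ?_⟩
  rw [← map_pow]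
  exact gvX_awayToSection i m α hα

lemma transfer {n : ℕ} (g : YY k n ⟶ XX k) [IsIso g] {V V' V'' : (XX k).Opens} (hV : xi k ∈ V)
    (hV' : xi k ∈ V') (hV'' : xi k ∈ V'') (f : Γ(XX k, V)) (f' : Γ(XX k, V')) (f'' : Γ(XX k, V'')) :
    psi g V hV f = psi g V' hV' f' * psi g V'' hV'' f'' ↔
      gvX hV f = gvX hV' f' * gvX hV'' f'' := by
  have hW : xi k ∈ V ⊓ (V' ⊓ V'') := ⟨hV, hV', hV''⟩
  have h1 : V ⊓ (V' ⊓ V'') ≤ V := inf_le_left
  have h2 : V ⊓ (V' ⊓ V'') ≤ V' := inf_le_right.trans inf_le_left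
  have h3 : V ⊓ (V' ⊓ V'') ≤ V'' := inf_le_right.trans inf_le_right
  rw [← psi_res g V hV _ hW h1, ← psi_res g V' hV' _ hW h2, ← psi_res g V'' hV'' _ hW h3,
    ← map_mul, (psi_injective g _ hW).eq_iff]
  rw [← (gv_injective (exists_x k) hW).eq_iff, map_mul]
  rfl

end GvX

section tt

variable {k : Type u} [Field k] [CharP k 2] {n : ℕ} (g : YY k n ⟶ XX k) [IsIso g]

/-- pullbacks of the coordinates -/
noncomputable def tt (i : Fin 4) (a : gr k 1) : KK k n := psi g (UU k i) (xi_mem k i) (fr k i a.1 a.2)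

lemma tt_self (i : Fin 4) : tt g i ⟨x k i, x_mem k i⟩ = 1 := by
  rw [tt, fr_self, map_one]

lemma tt_mul (i j : Fin 4) (a : gr k 1) : tt g i a = tt g i ⟨x k j, x_mem k j⟩ * tt g j a := by
  rw [tt, tt, tt, transfer]
  have h1 := gvX_fr i a.1 a.2
  have h2 := gvX_fr j a.1 a.2
  have h3 := gvX_fr i (x k j) (x_mem k j)
  have h4 := algebraMap_ne (x_ne_zero k i)
  have h5 := algebraMap_ne (x_ne_zero k j)
  apply mul_right_cancel₀ h4
  rw [h1, ← h2, ← h3]
  ring

lemma fr_add (i : Fin 4) (a b : A k) (ha : a ∈ gr k 1) (hb : b ∈ gr k 1) :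
    fr k i (a + b) (add_mem ha hb) = fr k i a ha + fr k i b hb := by
  apply gv_injective (exists_x k) (xi_mem k i)
  apply mul_right_cancel₀ (algebraMap_ne (x_ne_zero k i))
  rw [gvX_fr, RingHom.map_add (gvX (xi_mem k i)), add_mul, gvX_fr, gvX_fr, map_add]

lemma fr_smul (i : Fin 4) (c : k) (a : A k) (ha : a ∈ gr k 1) :
    fr k i (c • a) (Submodule.smul_mem _ _ ha) =
      constSection (XXstr k) (UU k i) c * fr k i a ha := by
  apply gv_injective (exists_x k) (xi_mem k i)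
  apply mul_right_cancel₀ (algebraMap_ne (x_ne_zero k i))
  rw [gvX_fr, map_mul, mul_assoc, gvX_fr, gvX_const, ← map_mul, Algebra.smul_def]

lemma tt_add (i : Fin 4) (a b : gr k 1) : tt g i (a + b) = tt g i a + tt g i b := by
  rw [tt, tt, tt, ← map_add, ← fr_add]
  rfl

lemma tt_smul (hg : g ≫ XXstr k = YYstr k n) (i : Fin 4) (c : k) (a : gr k 1) :
    tt g i (c • a) = algebraMap (S k n) (KK k n) (C c) * tt g i a := by
  rw [tt, tt, ← psi_const g (UU k i) (xi_mem k i) hg, ← map_mul, ← fr_smul]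
  rfl

lemma tt_injective (i : Fin 4) : Function.Injective (tt g i) := by
  intro a b hab
  have h1 := psi_injective g _ (xi_mem k i) hab
  have h2 := congrArg (gvX (xi_mem k i)) h1
  have h3 := gvX_fr i a.1 a.2
  rw [h2, gvX_fr] at h3
  exact Subtype.ext (IsFractionRing.injective (A k) (KA k) h3).symm

lemma tt_mul_eq_iff (i : Fin 4) (a b c d : gr k 1) :
    tt g i a * tt g i b = tt g i c * tt g i d ↔ (a : A k) * b = c * d := by
  rw [tt, tt, tt, tt, ← map_mul, ← map_mul, (psi_injective g _ (xi_mem k i)).eq_iff,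
    ← (gv_injective (exists_x k) (xi_mem k i)).eq_iff, map_mul, map_mul,
    ← (IsFractionRing.injective (A k) (KA k)).eq_iff, map_mul, map_mul,
    ← gvX_fr i a.1 a.2, ← gvX_fr i b.1 b.2, ← gvX_fr i c.1 c.2, ← gvX_fr i d.1 d.2]
  have h4 := algebraMap_ne (x_ne_zero k i)
  constructor
  · intro h
    linear_combination (algebraMap (A k) (KA k) (x k i)) ^ 2 * h
  · intro h
    apply mul_right_cancel₀ h4
    apply mul_right_cancel₀ h4
    linear_combination h

lemma tt_sq_z (a b c d z : gr k 1) (i : Fin 4) (h : (z : A k) * z = a * b + c * d) :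
    tt g i z * tt g i z = tt g i a * tt g i b + tt g i c * tt g i d := by
  rw [tt, tt, tt, tt, tt, ← map_mul, ← map_mul, ← map_mul, ← map_add]
  refine congrArg _ ?_
  apply gv_injective (exists_x k) (xi_mem k i)
  have h4 := algebraMap_ne (x_ne_zero k i)
  have h5 := congrArg (algebraMap (A k) (KA k)) h
  rw [map_mul, map_add, map_mul, map_mul, ← gvX_fr i z.1 z.2,
    ← gvX_fr i a.1 a.2, ← gvX_fr i b.1 b.2, ← gvX_fr i c.1 c.2, ← gvX_fr i d.1 d.2] at h5
  rw [map_mul, map_add, map_mul, map_mul]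
  apply mul_right_cancel₀ h4
  apply mul_right_cancel₀ h4
  linear_combination h5

omit [CharP k 2] in
lemma x_eq (j : Fin 4) : x k j = algebraMap (R k) (A k) (X j) := rfl

omit [CharP k 2] in
lemma dvd_A (m l : ℕ) (a b : A k) (h : a * x k 2 ^ l = x k 0 ^ m * b) :
    ∃ c, a = x k 0 ^ m * c := by
  rw [x_eq, x_eq, ← map_pow, ← map_pow, mul_comm, ← Algebra.smul_def, ← Algebra.smul_def] at h
  have h1 : ∀ f g : R k, X 2 ^ l * f = X 0 ^ m * g → X 0 ^ m ∣ f := by
    intro f g hfg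
    have hp : Prime (X 0 : R k) := X_prime
    apply hp.pow_dvd_of_dvd_mul_left m _ (Dvd.intro _ hfg.symm)
    intro h3
    have h4 := hp.dvd_of_dvd_pow h3
    rw [X_dvd_X] at h4
    simp at h4
  have h2 := congrArg QuadraticAlgebra.re h
  have h3 := congrArg QuadraticAlgebra.im h
  rw [QuadraticAlgebra.re_smul, QuadraticAlgebra.re_smul, smul_eq_mul, smul_eq_mul] at h2
  rw [QuadraticAlgebra.im_smul, QuadraticAlgebra.im_smul, smul_eq_mul, smul_eq_mul] at h3
  obtain ⟨c, hc⟩ := h1 _ _ h2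
  obtain ⟨d, hd⟩ := h1 _ _ h3
  refine ⟨⟨c, d⟩, ?_⟩
  rw [x_eq, ← map_pow, ← Algebra.smul_def]
  ext : 1
  · rw [QuadraticAlgebra.re_smul, hc, smul_eq_mul]
  · rw [QuadraticAlgebra.im_smul, hd, smul_eq_mul]

lemma star (f0 : Γ(XX k, UU k 0)) (f2 : Γ(XX k, UU k 2))
    (h : psi g (UU k 0) (xi_mem k 0) f0 = tt g 0 ⟨x k 2, x_mem k 2⟩ *
      psi g (UU k 2) (xi_mem k 2) f2) :
    ∃ c : gr k 1, psi g (UU k 0) (xi_mem k 0) f0 = tt g 0 c := by
  rw [tt, transfer] at h
  obtain ⟨m, α, hα, h1⟩ := gvX_away 0 f0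
  obtain ⟨l, β, hβ, h2⟩ := gvX_away 2 f2
  have h3 := gvX_fr 0 (x k 2) (x_mem k 2)
  have h4 : (α * x k 0) * x k 2 ^ l = x k 0 ^ m * (x k 2 * β) := by
    apply IsFractionRing.injective (A k) (KA k)
    simp only [map_mul, map_pow]
    rw [← h1, ← h2, h, ← h3]
    ring
  obtain ⟨c, hc⟩ := dvd_A m l _ _ h4
  have h5 : α * x k 0 = x k 0 ^ m * (DirectSum.decompose (gr k) c 1 : A k) := by
    have h6 : x k 0 ^ m ∈ gr k m := by simpa using SetLike.pow_mem_graded m (x_mem k 0)
    rw [← DirectSum.coe_decompose_mul_add_of_left_mem (gr k) h6, ← hc,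
      DirectSum.decompose_of_mem_same (gr k) (SetLike.mul_mem_graded hα (x_mem k 0))]
  refine ⟨DirectSum.decompose (gr k) c 1, ?_⟩
  rw [tt]
  refine congrArg _ ?_
  apply gv_injective (exists_x k) (xi_mem k 0)
  have h7 := gvX_fr 0 (DirectSum.decompose (gr k) c 1 : A k) (DirectSum.decompose (gr k) c 1).2
  have h8 := algebraMap_ne (x_ne_zero k 0)
  have h9 := congrArg (algebraMap (A k) (KA k)) h5
  simp only [map_mul, map_pow] at h9
  apply mul_right_cancel₀ (pow_ne_zero m h8)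
  apply mul_right_cancel₀ h8
  rw [h1, h9, ← h7]
  ring

end tt

end Pool.Agent.Helper413.Quad
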