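import Mathlib
import Pool.Agent.Helper413.Quad.Defs
import Pool.Agent.Helper413.Quad.GrDer
import Pool.Agent.Helper413.Quad.Ring
import Pool.Agent.Helper413.Quad.Gen
import Pool.Agent.Helper413.Quad.Var
import Pool.Agent.Helper413.Quad.O1
import Pool.Agent.Helper413.Quad.Gv
import Pool.Agent.Helper413.Quad.Pb
import Pool.Agent.Helper413.Quad.Tt
import Pool.Agent.Helper413.Quad.Mn
import Pool.Agent.Helper413.Quad.NoRel

open MvPolynomial AlgebraicGeometry CategoryTheory HomogeneousLocalization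

universe u

namespace Pool.Agent.Helper413.Quad

attribute [local instance] MvPolynomial.gradedAlgebra

section NI

variable {k : Type u} [Field k] [CharP k 2] {n : ℕ} (g : YY k n ⟶ XX k) [IsIso g]

/-- coordinates as elements of degree one -/
noncomputable def xd (k : Type u) [Field k] (j : Fin 4) : gr k 1 := ⟨x k j, x_mem k j⟩

/-- the coordinate `z` as an element of degree one -/
noncomputable def zd (k : Type u) [Field k] : gr k 1 := ⟨z k, z_mem k⟩

omit [CharP k 2] in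
lemma xd_indep (s : Fin 4 → k) (h : s 0 • xd k 0 + s 1 • xd k 1 + s 2 • xd k 2 + s 3 • xd k 3 = 0) :
    ∀ j, s j = 0 := by
  have h1 := congrArg (fun a : gr k 1 => (a : A k).re) h
  have h2 : ∑ j, C (s j) * X j = (0 : R k) := by
    rw [Fin.sum_univ_four]
    simpa [xd, x, MvPolynomial.smul_eq_C_mul] using h1
  intro j
  have h3 := congrArg (pderiv j) h2
  rw [map_sum, map_zero, Finset.sum_eq_single j] at h3
  · rw [pderiv_C_mul, pderiv_X_self, mul_one] at h3
    exact C_injective _ _ (by rw [h3, C_0])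
  · intro i _ hij
    rw [pderiv_C_mul, pderiv_X_of_ne hij, mul_zero]
  · intro h4
    exact absurd (Finset.mem_univ _) h4

lemma xd_ne (j : Fin 4) : tt g 0 (xd k j) ≠ 0 := by
  intro h
  have h1 : tt g 0 (0 : gr k 1) = 0 := by
    have h2 := tt_add g 0 0 0
    rw [add_zero] at h2
    exact left_eq_add.1 h2
  have h3 := tt_injective g 0 (h.trans h1.symm)
  exact x_ne_zero k j (congrArg Subtype.val h3)

lemma rep (f : Γ(XX k, UU k 0)) : ∃ (d : ℕ) (a b : S k n), a.IsHomogeneous d ∧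
      b.IsHomogeneous d ∧ b ≠ 0 ∧
      psi g (UU k 0) (xi_mem k 0) f * algebraMap _ _ b = algebraMap _ _ a := by
  obtain ⟨c, -, h2⟩ := gv_local (exists_y k n) (gen_mem g (UU k 0) (xi_mem k 0))
    ((g.app (UU k 0)).hom f) _ (gen_mem g (UU k 0) (xi_mem k 0))
  refine ⟨c.deg, c.num, c.den, c.num.2, c.den.2, ?_, h2⟩
  intro h3
  apply c.den_mem
  rw [h3]
  exact zero_mem _

/-- common coprime numerators of the coordinates -/
lemma exists_F : ∃ (d : ℕ) (F : Fin 4 → S k n), (∀ j, (F j).IsHomogeneous d) ∧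
      (∀ j, F j ≠ 0) ∧ (∀ i j, tt g i (xd k j) * algebraMap _ (KK k n) (F i) =
        algebraMap _ _ (F j)) ∧
      ∀ i (p : ProjectiveSpectrum (homogeneousSubmodule (Fin (n + 1)) k)),
        (p : YY k n) ∈ g ⁻¹ᵁ (UU k i) → F i ∉ p.asHomogeneousIdeal.toIdeal := by
  obtain ⟨d, F, h1, h2, h3, h4⟩ := exists_min (fun j => tt g 0 (xd k j)) (tt_self g 0) (xd_ne g)
    (fun j => rep g (fr k 0 (x k j) (x_mem k j)))
  have hinj := IsFractionRing.injective (S k n) (KK k n)
  have h5 : ∀ i j, tt g i (xd k j) * algebraMap _ (KK k n) (F i) = algebraMap _ _ (F j) := by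
    intro i j
    have h6 := tt_mul g 0 i (xd k j)
    have h7 := h3 i
    have h8 := h3 j
    rw [h6] at h8
    rw [← h7, ← h8]
    change _ * (tt g 0 (xd k i) * _) = tt g 0 (xd k i) * _ * _
    ring
  refine ⟨d, F, h1, h2, h5, ?_⟩
  intro i p hp hcon
  obtain ⟨π, hπ, hπF, hπp⟩ := exists_prime_factor p.asHomogeneousIdeal.toIdeal (F i) hcon (h2 i)
  obtain ⟨j, hj⟩ := h4 π hπ
  exact not_mem_of_gv (exists_y k n) (gen_mem g (UU k i) (xi_mem k i))
    ((g.app (UU k i)).hom (fr k i (x k j) (x_mem k j))) hπ (h5 i j) hπF hj p hp hπp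

/-- every form of degree `d` comes from an element of degree one -/
lemma exists_pre {d : ℕ} {F : Fin 4 → S k n} (h1 : ∀ j, (F j).IsHomogeneous d)
    (h2 : ∀ j, F j ≠ 0) (h3 : ∀ i j, tt g i (xd k j) * algebraMap _ (KK k n) (F i) =
        algebraMap _ _ (F j))
    (h4 : ∀ i (p : ProjectiveSpectrum (homogeneousSubmodule (Fin (n + 1)) k)),
        (p : YY k n) ∈ g ⁻¹ᵁ (UU k i) → F i ∉ p.asHomogeneousIdeal.toIdeal)
    (a : S k n) (ha : a.IsHomogeneous d) :
    ∃ α : gr k 1, tt g 0 α * algebraMap _ (KK k n) (F 0) = algebraMap _ _ a := by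
  have h5 : ∀ i, ∃ f : Γ(XX k, UU k i), psi g (UU k i) (xi_mem k i) f *
      algebraMap _ (KK k n) (F i) = algebraMap _ _ a := by
    intro i
    obtain ⟨f', hf'⟩ := exists_section (exists_y k n) (gen_mem g (UU k i) (xi_mem k i)) a (F i) ha
      (h1 i) (h4 i)
    obtain ⟨f, hf⟩ := psi_surj g (UU k i) (xi_mem k i) f'
    exact ⟨f, by rw [hf, hf']⟩
  obtain ⟨f0, hf0⟩ := h5 0
  obtain ⟨f2, hf2⟩ := h5 2
  have hinj := IsFractionRing.injective (S k n) (KK k n)
  have hF0 : algebraMap _ (KK k n) (F 0) ≠ 0 := (map_ne_zero_iff _ hinj).2 (h2 0)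
  have h6 : psi g (UU k 0) (xi_mem k 0) f0 = tt g 0 ⟨x k 2, x_mem k 2⟩ *
      psi g (UU k 2) (xi_mem k 2) f2 := by
    apply mul_right_cancel₀ hF0
    rw [hf0, ← hf2, ← h3 0 2]
    change _ = tt g 0 (xd k 2) * _ * _
    ring
  obtain ⟨α, hα⟩ := star g f0 f2 h6
  exact ⟨α, by rw [← hα, hf0]⟩

lemma tt_lin (hg : g ≫ XXstr k = YYstr k n) (s t : k) (a b : gr k 1) :
    tt g 0 (s • a + t • b) = algebraMap (S k n) (KK k n) (C s) * tt g 0 a +
      algebraMap (S k n) (KK k n) (C t) * tt g 0 b := by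
  rw [tt_add, tt_smul g hg, tt_smul g hg]

lemma F_indep (hg : g ≫ XXstr k = YYstr k n) {F : Fin 4 → S k n}
    (h2 : ∀ j, F j ≠ 0) (h3 : ∀ i j, tt g i (xd k j) * algebraMap _ (KK k n) (F i) =
        algebraMap _ _ (F j)) (s : Fin 4 → k)
    (h : C (s 0) * F 0 + C (s 1) * F 1 + C (s 2) * F 2 + C (s 3) * F 3 = 0) : ∀ j, s j = 0 := by
  apply xd_indep
  have hinj := IsFractionRing.injective (S k n) (KK k n)
  have hF0 : algebraMap _ (KK k n) (F 0) ≠ 0 := (map_ne_zero_iff _ hinj).2 (h2 0)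
  have h1 : tt g 0 (0 : gr k 1) = 0 := by
    have h2 := tt_add g 0 0 0
    rw [add_zero] at h2
    exact left_eq_add.1 h2
  apply tt_injective g 0
  rw [h1, tt_add, tt_add, tt_add, tt_smul g hg, tt_smul g hg, tt_smul g hg, tt_smul g hg]
  apply mul_right_cancel₀ hF0
  have h5 := congrArg (algebraMap (S k n) (KK k n)) h
  simp only [map_add, map_mul, map_zero] at h5
  rw [← h3 0 1, ← h3 0 2, ← h3 0 3] at h5
  have h6 := h3 0 0
  rw [zero_mul]
  linear_combination h5 + algebraMap (S k n) (KK k n) (C (s 0)) * h6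

omit [CharP k 2] in
lemma one_dim {d : ℕ} (h : d = 0 ∨ n = 0) (f : S k n) (hf : f.IsHomogeneous d) :
    f = C (coeff (Finsupp.single 0 d) f) * X 0 ^ d := by
  rw [C_mul_X_pow_eq_monomial]
  ext e
  rw [coeff_monomial]
  split_ifs with h1
  · rw [h1]
  · by_contra h2
    have h3 := hf h2
    rw [Finsupp.weight_apply, Finsupp.sum_fintype _ _ (by simp)] at h3
    simp only [Pi.one_apply, smul_eq_mul, mul_one] at h3
    apply h1
    rcases h with rfl | rfl
    · rw [Finsupp.single_zero]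
      ext i
      have h4 := (Finset.sum_eq_zero_iff.1 h3) i (Finset.mem_univ i)
      rw [h4]
      rfl
    · rw [Fin.sum_univ_one] at h3
      ext i
      have h5 : i = 0 := Fin.eq_zero i
      rw [h5, Finsupp.single_eq_same, h3]

lemma noniso_small {d : ℕ} (hdn : d = 0 ∨ n = 0) (hg : g ≫ XXstr k = YYstr k n) {F : Fin 4 → S k n}
    (h1 : ∀ j, (F j).IsHomogeneous d)
    (h2 : ∀ j, F j ≠ 0) (h3 : ∀ i j, tt g i (xd k j) * algebraMap _ (KK k n) (F i) =
        algebraMap _ _ (F j)) : False := by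
  have h4 := one_dim hdn (F 0) (h1 0)
  have h5 := one_dim hdn (F 1) (h1 1)
  set a := coeff (Finsupp.single 0 d) (F 0)
  set b := coeff (Finsupp.single 0 d) (F 1)
  have h6 := F_indep g hg h2 h3 ![b, -a, 0, 0] (by
    simp only [Matrix.cons_val]
    rw [h4, h5, C_neg, C_0]
    ring)
  have h7 : -a = 0 := h6 1
  apply h2 0
  rw [h4, neg_eq_zero.1 h7, C_0, zero_mul]

lemma noniso_one (hg : g ≫ XXstr k = YYstr k n) {F : Fin 4 → S k n}
    (h1 : ∀ j, (F j).IsHomogeneous 1)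
    (h2 : ∀ j, F j ≠ 0) (h3 : ∀ i j, tt g i (xd k j) * algebraMap _ (KK k n) (F i) =
        algebraMap _ _ (F j)) : False := by
  have hinj := IsFractionRing.injective (S k n) (KK k n)
  have hz : (z k : A k) * z k = x k 0 * x k 1 + x k 2 * x k 3 := x_rel (chart k 0)
  have h4 : tt g 0 (zd k) * tt g 0 (zd k) = tt g 0 (xd k 0) * tt g 0 (xd k 1) +
      tt g 0 (xd k 2) * tt g 0 (xd k 3) := tt_sq_z g _ _ _ _ (zd k) 0 hz
  obtain ⟨d, a, b, -, -, hb, hab⟩ := rep g (fr k 0 (z k) (z_mem k))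
  change tt g 0 (zd k) * _ = _ at hab
  have h5 : (a * F 0) * (a * F 0) = (b * b) * (F 0 * F 1 + F 2 * F 3) := by
    apply hinj
    simp only [map_mul, map_add]
    rw [← hab, ← h3 0 1, ← h3 0 2, ← h3 0 3]
    have h6 : tt g 0 (xd k 0) = 1 := tt_self g 0
    rw [h6] at h4
    linear_combination (algebraMap (S k n) (KK k n) b) ^ 2 *
      (algebraMap (S k n) (KK k n) (F 0)) ^ 2 * h4
  have h6 : ∀ j, pderiv j (F 0 * F 1 + F 2 * F 3) = 0 := by
    intro j
    have h7 := congrArg (pderiv j) h5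
    rw [pderiv_sq, Derivation.leibniz, pderiv_sq, smul_zero, add_zero, smul_eq_mul] at h7
    exact (mul_eq_zero.1 h7.symm).resolve_left (mul_ne_zero hb hb)
  have h7 : ∀ i j, ∃ c : k, pderiv j (F i) = C c := fun i j => ⟨_, pderiv_hom_one (h1 i) j⟩
  choose c hc using h7
  have h8 : ∀ j, c 0 j = 0 := by
    intro j
    have h9 := h6 j
    rw [map_add, Derivation.leibniz, Derivation.leibniz, hc, hc, hc, hc] at h9
    simp only [smul_eq_mul] at h9
    have h10 := F_indep g hg h2 h3 ![c 1 j, c 0 j, c 3 j, c 2 j] (by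
      simp only [Matrix.cons_val]
      linear_combination h9)
    exact h10 1
  apply h2 0
  rw [euler_one (h1 0)]
  apply Finset.sum_eq_zero
  intro j _
  rw [hc, h8, C_0, mul_zero]

lemma noniso_big {d : ℕ} {m : ℕ} (hn : n = m + 1) (hg : g ≫ XXstr k = YYstr k n) {F : Fin 4 → S k n}
    (h1 : ∀ j, (F j).IsHomogeneous (d + 2))
    (h2 : ∀ j, F j ≠ 0) (h3 : ∀ i j, tt g i (xd k j) * algebraMap _ (KK k n) (F i) =
        algebraMap _ _ (F j))
    (h4 : ∀ i (p : ProjectiveSpectrum (homogeneousSubmodule (Fin (n + 1)) k)),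
        (p : YY k n) ∈ g ⁻¹ᵁ (UU k i) → F i ∉ p.asHomogeneousIdeal.toIdeal) : False := by
  subst hn
  have hinj := IsFractionRing.injective (S k (m + 1)) (KK k (m + 1))
  have hF0 : algebraMap _ (KK k (m + 1)) (F 0) ≠ 0 := (map_ne_zero_iff _ hinj).2 (h2 0)
  obtain ⟨α, hα⟩ := exists_pre g h1 h2 h3 h4 (X 0 ^ (d + 2)) (isHomogeneous_X_pow _ _)
  obtain ⟨β, hβ⟩ := exists_pre g h1 h2 h3 h4 (X 0 ^ (d + 1) * X 1)
    ((isHomogeneous_X_pow _ _).mul (isHomogeneous_X _ _))
  obtain ⟨γ, hγ⟩ := exists_pre g h1 h2 h3 h4 (X 0 ^ d * X 1 ^ 2)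
    ((isHomogeneous_X_pow _ _).mul (isHomogeneous_X_pow _ _))
  have h5 : (α : A k) * γ = β * β := by
    rw [← tt_mul_eq_iff g 0 α γ β β]
    apply mul_right_cancel₀ hF0
    apply mul_right_cancel₀ hF0
    have h6 : algebraMap (S k (m + 1)) (KK k (m + 1)) (X 0 ^ (d + 2)) *
        algebraMap (S k (m + 1)) (KK k (m + 1)) (X 0 ^ d * X 1 ^ 2) =
        algebraMap (S k (m + 1)) (KK k (m + 1)) (X 0 ^ (d + 1) * X 1) *
        algebraMap (S k (m + 1)) (KK k (m + 1)) (X 0 ^ (d + 1) * X 1) := by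
      rw [← map_mul, ← map_mul]
      congr 1
      ring
    rw [← hα, ← hβ, ← hγ] at h6
    linear_combination h6
  refine noRel (α : A k) β γ α.2 β.2 γ.2 h5 ?_
  intro s t hst
  have h6 : s • α + t • γ = 0 := Subtype.ext hst
  have h7 : tt g 0 (0 : gr k 1) = 0 := by
    have h2 := tt_add g 0 0 0
    rw [add_zero] at h2
    exact left_eq_add.1 h2
  have h8 := tt_lin g hg s t α γ
  rw [h6, h7] at h8
  have h9 : C s * X 0 ^ (d + 2) + C t * (X 0 ^ d * X 1 ^ 2) = (0 : S k (m + 1)) := by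
    apply hinj
    rw [map_add, map_mul, map_mul, ← hα, ← hγ, map_zero]
    linear_combination (-algebraMap (S k (m + 1)) (KK k (m + 1)) (F 0)) * h8
  have h10 : C s * X 0 ^ 2 + C t * X 1 ^ 2 = (0 : S k (m + 1)) := by
    apply mul_left_cancel₀ (pow_ne_zero d (X_ne_zero (0 : Fin (m + 1 + 1))) : (X 0 ^ d : S k (m + 1)) ≠ 0)
    linear_combination h9
  have h01 : (1 : Fin (m + 1 + 1)) ≠ 0 := by simp
  constructor
  · have h11 := congrArg (eval (fun j => if j = 0 then (1 : k) else 0)) h10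
    simpa [h01] using h11
  · have h11 := congrArg (eval (fun j => if j = 1 then (1 : k) else 0)) h10
    simpa [h01, h01.symm] using h11

theorem noniso (hg : g ≫ XXstr k = YYstr k n) : False := by
  obtain ⟨d, F, h1, h2, h3, h4⟩ := exists_F g
  rcases Nat.eq_zero_or_pos n with hn | hn
  · exact noniso_small g (Or.inr hn) hg h1 h2 h3
  · obtain ⟨m, rfl⟩ := Nat.exists_eq_succ_of_ne_zero hn.ne'
    match d, h1 with
    | 0, h1 => exact noniso_small g (Or.inl rfl) hg h1 h2 h3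
    | 1, h1 => exact noniso_one g hg h1 h2 h3
    | d + 2, h1 => exact noniso_big g rfl hg h1 h2 h3 h4

end NI

end Pool.Agent.Helper413.Quad
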