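import Mathlib
import Pool.Agent.Helper413.Quad.Defs
import Pool.Agent.Helper413.Quad.GrDer
import Pool.Agent.Helper413.Quad.Ring
import Pool.Agent.Helper413.Quad.Gen
import Pool.Agent.Helper413.Quad.Var
import Pool.Agent.Helper413.Quad.O1

open MvPolynomial AlgebraicGeometry CategoryTheory HomogeneousLocalization HomogeneousIdeal

universe u

namespace Pool.Agent.Helper413.Quad

section phi

variable (k : Type u) [Field k] [CharP k 2]

/-- the derivation `x i * d/dz` -/
noncomputable def xdz (i : Fin 4) : GrDer (gr k) where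
  E := (AddMonoidHom.mulLeft (x k i)).comp (dz k)
  mul a b := by
    simp only [AddMonoidHom.comp_apply, AddMonoidHom.coe_mulLeft, dz_mul]
    ring
  deg n a ha := by
    cases n with
    | zero =>
      simp only [AddMonoidHom.comp_apply, AddMonoidHom.coe_mulLeft, dz_zero_deg k ha, mul_zero]
      exact zero_mem _
    | succ n =>
      have h1 := SetLike.mul_mem_graded (x_mem k i) (dz_mem k ha)
      rw [add_comm] at h1
      exact h1

lemma xdz_apply (i : Fin 4) (a : A k) : (xdz k i).E a = x k i * dz k a := rfl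

omit [CharP k 2] in
lemma dz_cst (c : k) : dz k (algebraMap k (A k) c) = 0 := by
  ext : 1
  · rfl
  · rfl

lemma xdz_der (i j : Fin 4) (p : ProjectiveSpectrum (gr k)) (hp : (p : XX k) ∈ UU k i)
    (v : Loc (gr k) p) : (xdz k j).der v =
      HomogeneousLocalization.mk ⟨1, ⟨x k j, x_mem k j⟩, ⟨x k i, x_mem k i⟩, hp⟩ *
        (xdz k i).der v := by
  obtain ⟨c, rfl⟩ := mk_surjective v
  rw [GrDer.der_mk, GrDer.der_mk, ← mk_mul]
  apply HomogeneousLocalization.val_injective
  rw [val_mk, val_mk, Localization.mk_eq_mk_iff, Localization.r_iff_exists]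
  refine ⟨1, ?_⟩
  simp only [GrDer.numDen, NumDenSameDeg.num_mul, NumDenSameDeg.den_mul, OneMemClass.coe_one,
    xdz_apply]
  ring

/-- the morphism `O(1) → T_X` -/
noncomputable def phi : HomToTangent (XXstr k) (O1 k) where
  D i := (xdz k i.down).vf (gr k) (fun c => by rw [xdz_apply, dz_cst, mul_zero]) (UU k i.down)
  agree i j V hi hj f := by
    apply section_ext
    intro p hp
    change (xdz k j.down).der (valueAt p hp f) = _
    rw [xdz_der k i.down j.down p (hi hp), map_mul]
    congr 1
    exact (valueAt_fr k i.down (x k j.down) (x_mem k _) p (hi hp)).symm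

lemma phi_nonzero : (phi k).IsNonzero := by
  refine ⟨⟨0⟩, UU k 0, le_rfl, fr k 0 (z k) (z_mem k), ?_⟩
  have h1 : ((phi k).D ⟨0⟩).der (UU k 0) le_rfl (fr k 0 (z k) (z_mem k)) = 1 := by
    apply section_ext
    intro p hp
    change (xdz k 0).der (valueAt p hp (fr k 0 (z k) (z_mem k))) = valueAt p hp 1
    rw [valueAt_fr, map_one, GrDer.der_mk]
    apply HomogeneousLocalization.val_injective
    rw [val_mk, val_one]
    have h2 : dz k (z k) = 1 := by ext : 1 <;> rfl
    have h3 : dz k (x k 0) = 0 := by ext : 1 <;> rfl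
    simp only [GrDer.numDen, xdz_apply, h2, h3, mul_one, mul_zero, sub_zero]
    exact Localization.mk_self (⟨x k 0 * x k 0, _⟩ : p.asHomogeneousIdeal.toIdeal.primeCompl)
  rw [h1]
  have h4 : Nontrivial Γ(XX k, UU k 0) := (chartIso k 0).symm.toEquiv.nontrivial
  exact one_ne_zero

end phi

end Pool.Agent.Helper413.Quad
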