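import Mathlib
import Pool.Agent.Helper413.Quad.Defs
import Pool.Agent.Helper413.Quad.GrDer
import Pool.Agent.Helper413.Quad.Ring
import Pool.Agent.Helper413.Quad.Var
import Pool.Agent.Helper413.Quad.ClosedImm

open MvPolynomial AlgebraicGeometry CategoryTheory HomogeneousLocalization HomogeneousIdeal

universe u

namespace Pool.Agent.Helper413.Quad

attribute [local instance] MvPolynomial.gradedAlgebra

section constSec

variable {k : Type u} [Field k]

lemma constSection_comp {X Y : Scheme.{u}} (i : X ⟶ Y) (s : Y ⟶ Spec (CommRingCat.of k)) (c : k) :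
    constSection (i ≫ s) ⊤ c = i.appTop (constSection s ⊤ c) := by
  rw [constSection, constSection]
  have h1 : (i ≫ s).appLE ⊤ ⊤ le_top = s.appLE ⊤ ⊤ le_top ≫ i.appTop := by
    have h2 : ∀ {X : Scheme.{u}} (s : X ⟶ Spec (CommRingCat.of k)),
        s.appLE ⊤ ⊤ le_top = s.appTop := fun s => (s.app_eq_appLE (U := ⊤)).symm
    rw [h2, h2, Scheme.Hom.comp_appTop]
  rw [h1]
  rfl

lemma hom_ext_constSection {X : Scheme.{u}} (s t : X ⟶ Spec (CommRingCat.of k))
    (h : ∀ c, constSection s ⊤ c = constSection t ⊤ c) : s = t := by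
  apply ext_of_isAffine
  ext y
  obtain ⟨c, rfl⟩ := (Scheme.ΓSpecIso (CommRingCat.of k)).commRingCatIsoToRingEquiv.symm.surjective y
  have h2 : ∀ {X : Scheme.{u}} (s : X ⟶ Spec (CommRingCat.of k)),
      s.appLE ⊤ ⊤ le_top = s.appTop := fun s => (s.app_eq_appLE (U := ⊤)).symm
  have h1 := h c
  rw [constSection, constSection, h2, h2] at h1
  exact h1

end constSec

section CI

variable {A B σ τ : Type u} [CommRing A] [SetLike σ A] [AddSubgroupClass σ A]
  [CommRing B] [SetLike τ B] [AddSubgroupClass τ B]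
  {𝒜 : ℕ → σ} {ℬ : ℕ → τ} [GradedRing 𝒜] [GradedRing ℬ]
  (f : 𝒜 →+*ᵍ ℬ) (hf : ℬ₊ ≤ 𝒜₊.map f)

lemma valueAt_map (p : ProjectiveSpectrum ℬ) (a : Γ(Proj 𝒜, ⊤)) :
    valueAt (U := ⊤) p trivial ((Proj.map f hf).appTop a) =
      localRingHom f _ _ rfl (valueAt (U := ⊤) (ProjectiveSpectrum.comap f hf p) trivial a) := rfl

end CI

section coord
variable (k : Type u) [Field k]

/-- coordinates of the ambient projective space, as elements of the coordinate ring -/
noncomputable def coord : Fin 5 → A k := Fin.snoc (α := fun _ => A k) (x k) (z k)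

lemma coord_mem (i : Fin 5) : coord k i ∈ gr k 1 := by
  refine Fin.lastCases ?_ (fun j => ?_) i
  · rw [coord, Fin.snoc_last]
    exact z_mem k
  · rw [coord, Fin.snoc_castSucc]
    exact x_mem k j

lemma aeval_mem_gr {σ : Type*} (v : σ → A k) (hv : ∀ i, v i ∈ gr k 1) {n : ℕ}
    {f : MvPolynomial σ k} (hf : f.IsHomogeneous n) : aeval v f ∈ gr k n := by
  rw [aeval_def, eval₂_eq]
  apply Submodule.sum_mem
  intro d hd
  have h1 := hf.degree_eq_sum_deg_support hd
  have h2 : ∏ i ∈ d.support, v i ^ d i ∈ gr k n := by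
    have h3 := SetLike.prod_pow_mem_graded (gr k) (fun _ : σ => 1) v d (F := d.support)
      (fun i _ => hv i)
    convert h3 using 2
    rw [h1]
    simp
  rw [← Algebra.smul_def]
  exact Submodule.smul_mem _ _ h2

/-- the surjection from the polynomial ring in five variables -/
noncomputable def gHom : homogeneousSubmodule (Fin 5) k →+*ᵍ gr k where
  toRingHom := (aeval (coord k) : MvPolynomial (Fin 5) k →ₐ[k] A k).toRingHom
  map_mem {n f} hf := aeval_mem_gr k _ (coord_mem k) ((mem_homogeneousSubmodule n f).1 hf)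

lemma gHom_apply (f : MvPolynomial (Fin 5) k) : gHom k f = aeval (coord k) f := rfl

lemma gHom_rename (f : R k) : gHom k (rename Fin.castSucc f) = ⟨f, 0⟩ := by
  rw [gHom_apply, aeval_rename, ← evenHom_apply, evenHom]
  congr 2
  funext i
  simp [coord]

lemma gHom_surj (n : ℕ) (b : A k) (hb : b ∈ gr k n) :
    ∃ a ∈ homogeneousSubmodule (Fin 5) k n, gHom k a = b := by
  refine ⟨rename Fin.castSucc b.re + rename Fin.castSucc b.im * X (Fin.last 4), ?_, ?_⟩
  · refine add_mem (IsHomogeneous.rename_isHomogeneous hb.1) ?_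
    cases n with
    | zero =>
      have h2 : b.im = 0 := hb.2
      rw [h2, map_zero, zero_mul]
      exact zero_mem _
    | succ n =>
      have h3 : b.im.IsHomogeneous n := hb.2
      exact h3.rename_isHomogeneous.mul (isHomogeneous_X k _)
  · rw [map_add, map_mul, gHom_rename, gHom_rename]
    have h1 : gHom k (X (Fin.last 4)) = z k := by
      rw [gHom_apply, aeval_X, coord, Fin.snoc_last]
    rw [h1]
    ext : 1
    · simp [z]
    · simp [z]

lemma gHom_irr : (gr k)₊ ≤ ((homogeneousSubmodule (Fin 5) k)₊).map (gHom k) := by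
  rw [HomogeneousIdeal.irrelevant_le]
  intro n hn b hb
  obtain ⟨a, ha, rfl⟩ := gHom_surj k n b hb
  exact Ideal.mem_map_of_mem _ (HomogeneousIdeal.mem_irrelevant_of_mem _ hn ha)

lemma isProjective_XX : IsProjectiveOver (XXstr k) := by
  refine ⟨4, Proj.map (gHom k) (gHom_irr k), isClosedImmersion_map (gHom k) (gHom_irr k)
    (gHom_surj k), ?_⟩
  apply hom_ext_constSection
  intro c
  rw [constSection_comp]
  apply section_ext
  intro p hp
  have h1 := valueAt_const (homogeneousSubmodule (Fin 5) k) ⊤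
    (ProjectiveSpectrum.comap (gHom k) (gHom_irr k) p) trivial c
  refine (valueAt_map (gHom k) (gHom_irr k) p _).trans ?_
  refine (congrArg _ h1).trans ?_
  rw [valueAt_const]
  apply HomogeneousLocalization.val_injective
  rw [val_localRingHom]
  change Localization.localRingHom _ _ _ _ (Localization.mk (algebraMap k (MvPolynomial (Fin 5) k) c) 1) =
    Localization.mk (algebraMap k (A k) c) 1
  rw [Localization.mk_one_eq_algebraMap, Localization.mk_one_eq_algebraMap, Localization.localRingHom_to_map]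
  congr 1
  exact (aeval (coord k) : MvPolynomial (Fin 5) k →ₐ[k] A k).commutes c

end coord

end Pool.Agent.Helper413.Quad
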